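import Pool.Agent.D0H85.BD.Core

/-!
Heights and finiteness of sparse points of bounded degree.
-/

set_option autoImplicit false
set_option linter.unusedSectionVars false

namespace Pool.Agent.D0H85.BD

open NumberField IsDedekindDomain Height Filter Topology
open scoped IntermediateField LinearAlgebra.Projectivization
open Pool.Agent.K1H83.VN
open Pool.Agent.D0H85.SP
open Pool.Agent.W180.OP (Pl av wt fv fv_support_finite wt_nonneg)
open Pool.Agent.Helper259.AbsHt (Qbar absLogHeight absLogHeight_comp_le absLogHeight_smul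
  aff_le_of_eq_one)

variable {K : Type} [Field K] {n r : ℕ}

theorem height_bound (d : ℕ) (G : Set (MvPolynomial (Fin (n + 1)) K))
    (H : Fin r → MvPolynomial (Fin (n + 1)) K) (hc : NoPtsAll d G H) : HtBound d G H := by
  classical
  intro L _ _ _ φ S hS N
  by_contra hcon
  push Not at hcon
  choose T hT x hx0 hsp hon hlt using fun t : ℕ => hcon (t : ℝ)
  choose θ f A hf0 hfd hfθ hfs hA using hsp
  choose hGx hHx using hon
  choose a u ha hu hfsum using hfs
  have hA' : ∀ t i j, Sparse S N (T t) ((A t i).coeff j) := fun t i j => (hA t i).2.1 j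
  choose a' u' ha' hu' hAsum using hA'
  set S' := plS S hS with hS'
  have hLt : ∀ t : ℕ, (t : ℝ) * (1 + T t) < absLogHeight (x t) := hlt
  have hLlim : Tendsto (fun t => absLogHeight (x t)) (hyperfilter ℕ : Filter ℕ) atTop := by
    refine Tendsto.mono_left ?_ Nat.hyperfilter_le_atTop
    refine tendsto_atTop_mono (fun t => ?_) tendsto_natCast_atTop_atTop
    have h1 := hLt t
    have h2 : 0 ≤ (t : ℝ) * T t := mul_nonneg (Nat.cast_nonneg t) (hT t)
    rw [mul_add, mul_one] at h1
    linarith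
  let σ : Sc := ⟨hyperfilter ℕ, fun t => absLogHeight (x t), hLlim⟩
  have hTs : Sm σ T := by
    intro ε hε
    have h1 : ∀ᶠ t : ℕ in (hyperfilter ℕ : Filter ℕ), 1 / ε ≤ (t : ℝ) :=
      Nat.hyperfilter_le_atTop (tendsto_natCast_atTop_atTop.eventually_ge_atTop _)
    have h2 : ∀ᶠ t : ℕ in (hyperfilter ℕ : Filter ℕ), T t ≤ ε * absLogHeight (x t) := by
      filter_upwards [h1] with t ht
      have h3 := hLt t
      have h4 : 1 / ε * T t ≤ (t : ℝ) * (1 + T t) := by
        have := hT t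
        have h5 : 1 / ε * T t ≤ (t : ℝ) * T t := mul_le_mul_of_nonneg_right ht this
        have h6 : (0 : ℝ) ≤ t := Nat.cast_nonneg t
        nlinarith
      have h5 : 1 / ε * T t ≤ absLogHeight (x t) := h4.trans h3.le
      rw [one_div, inv_mul_le_iff₀ hε] at h5
      exact h5
    exact h2
  have hmap : ∀ (g : MvPolynomial (Fin (n + 1)) K) (y : Fin (n + 1) → Qbar),
      (MvPolynomial.map (algebraMap K L) g).eval₂ φ y = g.eval₂ (φ.comp (algebraMap K L)) y := by
    intro g y
    rw [MvPolynomial.eval₂_map]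
  have key := core (k := L) (σ := σ) (S := S') (fun w => inl_mem S hS w) (n := n) (N := N)
    (d := d) (δ := N + 1) (r := r) φ ((MvPolynomial.map (algebraMap K L)) '' G)
    (fun l => MvPolynomial.map (algebraMap K L) (H l)) θ (fun i t => x t i)
    (fun p t => Sum.elim (fun j : Fin (d + 1) => (f t).coeff j)
      (fun q : Fin (n + 1) × Fin (N + 1) => (A t q.1).coeff q.2) p)
    (fun p m t => Sum.elim (fun j : Fin (d + 1) => a t j m)
      (fun q : Fin (n + 1) × Fin (N + 1) => a' t q.1 q.2 m) p)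
    (fun p m t => Sum.elim (fun j : Fin (d + 1) => (u t j m : L))
      (fun q : Fin (n + 1) × Fin (N + 1) => (u' t q.1 q.2 m : L)) p)
    (by
      rintro (j | q) t
      · exact hfsum t j
      · exact hAsum t q.1 q.2)
    (by
      rintro (j | q) m t
      · exact isSU_of_unit S hS _ (hu t j m)
      · exact isSU_of_unit S hS _ (hu' t q.1 q.2 m))
    (by
      rintro (j | q) m
      · exact hTs.mono (Eventually.of_forall fun t => ha t j m)
      · exact hTs.mono (Eventually.of_forall fun t => ha' t q.1 q.2 m))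
    (by
      intro t
      refine ⟨⟨(f t).natDegree, by have := hfd t; omega⟩, ?_⟩
      show (f t).coeff (f t).natDegree ≠ 0
      exact Polynomial.leadingCoeff_ne_zero.2 (hf0 t))
    (by
      intro t
      have h1 := hfθ t
      rw [Polynomial.eval₂_eq_sum_range' φ (n := d + 1) (by have := hfd t; omega)] at h1
      rw [← h1, ← Fin.sum_univ_eq_sum_range (fun j => φ ((f t).coeff j) * θ t ^ j)]
      rfl)
    (by
      intro i t
      have h1 := (hA t i).2.2
      rw [Polynomial.eval₂_eq_sum_range' φ (n := N + 1) (by have := (hA t i).1; omega)] at h1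
      rw [h1, ← Fin.sum_univ_eq_sum_range (fun j => φ ((A t i).coeff j) * θ t ^ j)]
      rfl)
    (fun t => rfl)
    (by
      rintro _ ⟨g, hg, rfl⟩ t
      rw [hmap]
      exact hGx t g hg)
    (by
      intro t
      obtain ⟨l, hl⟩ := hHx t
      refine ⟨l, ?_⟩
      rw [hmap]
      exact hl)
  obtain ⟨Ω, _, _, M, _, _, ψ, t, y, h1, h2, h3, h4, h5⟩ := key
  apply h5
  refine hc Ω (ψ.comp (algebraMap K L)) M t y h1 h2 ?_ h4
  have he : ∀ (g : MvPolynomial (Fin (n + 1)) K) (y : Fin (n + 1) → M),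
      (MvPolynomial.map (algebraMap K L) g).eval₂ ((algebraMap Ω M).comp ψ) y =
        g.eval₂ ((algebraMap Ω M).comp (ψ.comp (algebraMap K L))) y := by
    intro g y
    rw [MvPolynomial.eval₂_map]
    rfl
  obtain ⟨h6, l, hl⟩ := h3
  refine ⟨fun g hg => ?_, l, ?_⟩
  · rw [← he]
    exact h6 _ ⟨g, hg, rfl⟩
  · rw [← he]
    exact hl

/-- the degrees of the ratios of the coordinates -/
theorem deg_le (d : ℕ) {L : Type} [Field L] [NumberField L] (φ : L →+* Qbar)
    (θ : Qbar) (f : Polynomial L) (hf : f ≠ 0) (hfd : f.natDegree ≤ d) (hθ : f.eval₂ φ θ = 0)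
    (p q : Polynomial L) :
    (minpoly ℚ (p.eval₂ φ θ / q.eval₂ φ θ)).natDegree ≤ Module.finrank ℚ L * d := by
  let _ : Algebra L Qbar := φ.toAlgebra
  have hint : IsIntegral L θ := (show IsAlgebraic L θ from ⟨f, hf, hθ⟩).isIntegral
  have : FiniteDimensional L L⟮θ⟯ := IntermediateField.adjoin.finiteDimensional hint
  have h1 : Module.finrank L L⟮θ⟯ ≤ d := by
    rw [IntermediateField.adjoin.finrank hint]
    exact (Polynomial.natDegree_le_of_dvd (minpoly.dvd L θ hθ) hf).trans hfd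
  have h2 : ∀ p : Polynomial L, p.eval₂ φ θ ∈ L⟮θ⟯ := fun p =>
    (IntermediateField.algebra_adjoin_le_adjoin L {θ})
      (Polynomial.aeval_mem_adjoin_singleton L θ (p := p))
  let z : L⟮θ⟯ := ⟨_, div_mem (h2 p) (h2 q)⟩
  have h3 : minpoly ℚ (p.eval₂ φ θ / q.eval₂ φ θ) = minpoly ℚ z :=
    (minpoly.algebraMap_eq (A := ℚ) (B := L⟮θ⟯) (B' := Qbar) Subtype.val_injective z)
  rw [h3]
  have : FiniteDimensional ℚ L⟮θ⟯ := Module.Finite.trans L _
  refine (minpoly.natDegree_le z).trans ?_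
  rw [← Module.finrank_mul_finrank ℚ L L⟮θ⟯]
  exact Nat.mul_le_mul_left _ h1

theorem fin_of_bound (d : ℕ) (G : Set (MvPolynomial (Fin (n + 1)) K))
    (H : Fin r → MvPolynomial (Fin (n + 1)) K) (h : HtBound d G H) : FinAll d G H := by
  classical
  intro L _ _ _ φ S hS N T
  obtain ⟨C, hC⟩ := h L φ S hS N
  set T' : ℝ := max T 0
  set B : ℝ := C * (1 + T')
  let A : Set Qbar := {α : Qbar | (minpoly ℚ α).natDegree ≤ Module.finrank ℚ L * d ∧
    absLogHeight ![1, α] ≤ B}
  have hA : A.Finite := Pool.Agent.H58W.northcott _ B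
  have hpi : (Set.pi Set.univ fun _ : Fin (n + 1) => A).Finite := Set.Finite.pi' (fun _ => hA) |>.subset
    fun x hx i => hx i (Set.mem_univ i)
  let F : (Fin (n + 1) → Qbar) → ℙ Qbar (Fin (n + 1) → Qbar) := fun x =>
    if h : x ≠ 0 then Projectivization.mk Qbar x h else Projectivization.mk Qbar (fun _ => 1)
      (fun h0 => one_ne_zero (congrFun h0 0))
  refine (hpi.image F).subset fun P hP => ?_
  obtain ⟨x, hx, hPx, hsp, hon⟩ := hP
  have hsp' : SparsePt φ S N T' d x := by
    obtain ⟨θ, f, Q, h1, h2, h3, h4, h5⟩ := hsp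
    refine ⟨θ, f, Q, h1, h2, h3, fun j => ?_, fun i => ⟨(h5 i).1, fun j => ?_, (h5 i).2.2⟩⟩
    · obtain ⟨a, u, ha, hu, hs⟩ := h4 j
      exact ⟨a, u, fun j => (ha j).trans (le_max_left _ _), hu, hs⟩
    · obtain ⟨a, u, ha, hu, hs⟩ := (h5 i).2.1 j
      exact ⟨a, u, fun j => (ha j).trans (le_max_left _ _), hu, hs⟩
  have hB : absLogHeight x ≤ B := hC T' (le_max_right _ _) x hx hsp' hon
  obtain ⟨i, hi⟩ := Function.ne_iff.1 hx
  have hi' : x i ≠ 0 := hi
  have hx' : (x i)⁻¹ • x ≠ 0 := smul_ne_zero (inv_ne_zero hi') hx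
  refine ⟨(x i)⁻¹ • x, ?_, ?_⟩
  · intro j _
    have h1 : ((x i)⁻¹ • x) j = x j / x i := by
      rw [Pi.smul_apply, smul_eq_mul, div_eq_inv_mul]
    refine ⟨?_, ?_⟩
    · rw [h1]
      obtain ⟨θ, f, Q, g1, g2, g3, g4, g5⟩ := hsp
      rw [(g5 j).2.2, (g5 i).2.2]
      exact deg_le d φ θ f g1 g2 g3 _ _
    · have h2 : ((x i)⁻¹ • x) i = 1 := by
        rw [Pi.smul_apply, smul_eq_mul, inv_mul_cancel₀ hi']
      refine (aff_le_of_eq_one _ i h2 j).trans ?_
      rw [absLogHeight_smul _ (inv_ne_zero hi')]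
      exact hB
  · show F ((x i)⁻¹ • x) = P
    have h3 : F ((x i)⁻¹ • x) = Projectivization.mk Qbar _ hx' := dif_pos hx'
    rw [h3, hPx, Projectivization.mk_eq_mk_iff']
    exact ⟨(x i)⁻¹, rfl⟩

theorem units_of_fin (d : ℕ) (G : Set (MvPolynomial (Fin (n + 1)) K))
    (H : Fin r → MvPolynomial (Fin (n + 1)) K) (h : FinAll d G H) : FinUnits d G H :=
  fun L _ _ _ φ S hS N => h L φ S hS N 0

end Pool.Agent.D0H85.BD
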