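import Pool.Agent.D0H85.BD.Spec
import Pool.Agent.D0H85.BD.Fin1

/-!
Points over function fields and sparse points from the data.
-/

set_option autoImplicit false
set_option linter.unusedSectionVars false

namespace Pool.Agent.D0H85.BD

open NumberField IsDedekindDomain Height Filter Topology
open scoped IntermediateField LinearAlgebra.Projectivization
open Polynomial (C X)
open Pool.Agent.W180.OP (Pl av wt fv fv_support_finite wt_nonneg)
open Pool.Agent.Helper259.AbsHt (Qbar absLogHeight)
open Pool.Agent.D0H85.SP (Sparse badPrimes bad_finite good_one fv_one_iff)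

section ratfunc

variable {K : Type} [Field K] {n r d : ℕ} {G : Set (MvPolynomial (Fin (n + 1)) K)}
  {H : Fin r → MvPolynomial (Fin (n + 1)) K} {L : Type} [Field L] {ψ : K →+* L}
  {f : Polynomial (Polynomial L)} {A : Fin (n + 1) → Polynomial (Polynomial L)}
  {i j : Fin (n + 1)} {l : Fin r} {P : Polynomial (Polynomial L)} {D : ℕ}
  {U W : Polynomial (Polynomial L)} {c : Polynomial L}

theorem ev2_map {F M : Type} [Field F] [Field M] [Algebra F M] (ρ : L →+* M) (t θ : M)
    (τ : Polynomial L →+* F) (hτ : (algebraMap F M).comp τ = Polynomial.eval₂RingHom ρ t)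
    (p : Polynomial (Polynomial L)) : Polynomial.aeval θ (p.map τ) = ev2 ρ t θ p := by
  rw [Polynomial.aeval_def, Polynomial.eval₂_map, hτ]
  rfl

theorem Dat.not_noPts (h : Dat d G H ψ f A i j l P D U W c) {Ω : Type} [Field Ω] (ι : L →+* Ω) :
    ¬ NoPts d G H Ω (ι.comp ψ) := by
  intro hno
  let M : Type := AlgebraicClosure (RatFunc Ω)
  let t0 : M := algebraMap (RatFunc Ω) M RatFunc.X
  have ht0 : Transcendental Ω t0 := by
    have h1 : Transcendental Ω (RatFunc.X : RatFunc Ω) := RatFunc.transcendental_X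
    rw [Transcendental, isAlgebraic_algebraMap_iff (algebraMap (RatFunc Ω) M).injective]
    exact h1
  let ρ : L →+* M := (algebraMap Ω M).comp ι
  obtain ⟨θ, hθ⟩ : ∃ θ : M, (f.map (Polynomial.eval₂RingHom ρ t0)).eval θ = 0 := by
    obtain ⟨θ, hθ⟩ := IsAlgClosed.exists_root (f.map (Polynomial.eval₂RingHom ρ t0)) (by
      have h1 := h.mon.degree_map (Polynomial.eval₂RingHom ρ t0)
      rw [h1]
      have h2 := h.pos
      intro h3
      rw [Polynomial.natDegree_pos_iff_degree_pos, h3] at h2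
      exact lt_irrefl _ h2)
    exact ⟨θ, hθ⟩
  have hθ' : ev2 ρ t0 θ f = 0 := by
    rw [Polynomial.eval_map] at hθ
    exact hθ
  have hρ : ∀ p : Polynomial L, p.eval₂ ρ t0 = Polynomial.aeval t0 (p.map ι) := by
    intro p
    rw [Polynomial.aeval_def, Polynomial.eval₂_map]
  have hc0 : c.eval₂ ρ t0 ≠ 0 := by
    rw [hρ]
    exact aeval_ne ht0 ((Polynomial.map_ne_zero_iff ι.injective).2 h.ne)
  obtain ⟨h1, h2, h3, h4⟩ := h.eval ρ t0 θ hθ' hc0
  set x : Fin (n + 1) → M := fun a => ev2 ρ t0 θ (A a) with hx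
  -- the degree
  let g0 : Ω⟮t0⟯ := ⟨t0, IntermediateField.mem_adjoin_simple_self Ω t0⟩
  let τ : Polynomial L →+* Ω⟮t0⟯ := Polynomial.eval₂RingHom ((algebraMap Ω Ω⟮t0⟯).comp ι) g0
  have hτ : (algebraMap Ω⟮t0⟯ M).comp τ = Polynomial.eval₂RingHom ρ t0 := by
    refine Polynomial.ringHom_ext' ?_ ?_
    · refine RingHom.ext fun z => ?_
      show algebraMap Ω⟮t0⟯ M (Polynomial.eval₂ _ _ (C z)) = Polynomial.eval₂ _ _ (C z)
      rw [Polynomial.eval₂_C, Polynomial.eval₂_C]
      rfl
    · show algebraMap Ω⟮t0⟯ M (Polynomial.eval₂ _ _ X) = Polynomial.eval₂ _ _ X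
      rw [Polynomial.eval₂_X, Polynomial.eval₂_X]
      rfl
  have hdeg : DegLE Ω⟮t0⟯ d x := by
    refine degLE_of_root θ (f.map τ) (h.mon.map τ).ne_zero ?_ ?_ x fun a => ⟨(A a).map τ, ?_⟩
    · rw [h.mon.natDegree_map]
      exact h.deg
    · rw [ev2_map ρ t0 θ τ hτ, hθ']
    · rw [ev2_map ρ t0 θ τ hτ]
  have hcomp : ρ.comp ψ = (algebraMap Ω M).comp (ι.comp ψ) := rfl
  rw [hcomp] at h2
  have hx0 : x ≠ 0 := fun h0 => h1 (congrFun h0 j)
  obtain ⟨v, hv⟩ := hno M t0 x ht0 hx0 h2 hdeg i j
  -- the polynomial relation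
  have hv' : ev2 ρ t0 θ (A i) / ev2 ρ t0 θ (A j) = algebraMap Ω M v := hv
  rw [hv'] at h3 h4
  have h5 : Polynomial.eval₂RingHom ρ (algebraMap Ω M v) =
      (algebraMap Ω M).comp (Polynomial.eval₂RingHom ι v) := by
    refine RingHom.ext fun p => ?_
    show Polynomial.eval₂ ρ (algebraMap Ω M v) p = algebraMap Ω M (Polynomial.eval₂ ι v p)
    rw [Polynomial.hom_eval₂]
  rw [h5, ← Polynomial.map_map, Polynomial.eval_map, ← Polynomial.aeval_def] at h4
  have h6 : P.map (Polynomial.eval₂RingHom ι v) = 0 := by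
    by_contra h0
    exact aeval_ne ht0 h0 h4
  have h7 := congrArg (fun p => p.coeff P.natDegree) h6
  simp only [Polynomial.coeff_map, Polynomial.coeff_zero] at h7
  apply h3
  have h8 : Polynomial.eval₂ ρ (algebraMap Ω M v) P.leadingCoeff =
      algebraMap Ω M (Polynomial.eval₂ ι v P.leadingCoeff) := by
    rw [Polynomial.hom_eval₂]
  rw [h8]
  have h9 : Polynomial.eval₂ ι v P.leadingCoeff = 0 := h7
  rw [h9, map_zero]

end ratfunc

section points

/-- the value of a polynomial at a power of `2` is sparse -/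
theorem sparse_eval {L : Type} [Field L] [NumberField L] (S : Set (HeightOneSpectrum (𝓞 L)))
    (h2 : ∀ v, v ∉ S → fv v (2 : L) = 1) (p : Polynomial L)
    (hp : ∀ v, v ∉ S → ∀ m, p.coeff m ≠ 0 → fv v (p.coeff m) = 1) (N : ℕ) (hN : p.natDegree < N)
    (m : ℕ) : Sparse S N 0 (p.eval ((2 : L) ^ m)) := by
  classical
  let c : Fin N → L := fun a => p.coeff a
  have hy0 : ((2 : L) ^ m) ≠ 0 := pow_ne_zero _ two_ne_zero
  refine ⟨fun a => if c a = 0 then 0 else 1, fun a => if hc : c a = 0 then 1 else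
    Units.mk0 (c a * ((2 : L) ^ m) ^ (a : ℕ)) (mul_ne_zero hc (pow_ne_zero _ hy0)), ?_, ?_, ?_⟩
  · intro a
    dsimp only
    split_ifs
    · rw [logHeight₁_zero]
    · rw [logHeight₁_one]
  · intro a
    dsimp only
    by_cases hc : c a = 0
    · rw [dif_pos hc]
      exact (S.unit L).one_mem
    · rw [dif_neg hc]
      intro v hv
      rw [Units.val_mk0, ← fv_one_iff, map_mul, hp v hv a hc, one_mul, map_pow, map_pow, h2 v hv,
        one_pow, one_pow]
  · rw [Polynomial.eval_eq_sum_range' (n := N) hN, ← Fin.sum_univ_eq_sum_range]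
    refine Finset.sum_congr rfl fun a _ => ?_
    dsimp only
    by_cases hc : c a = 0
    · rw [if_pos hc, zero_mul]
      show c a * _ = 0
      rw [hc, zero_mul]
    · rw [if_neg hc, dif_neg hc, one_mul, Units.val_mk0]

variable {K : Type} [Field K] {n r d : ℕ} {G : Set (MvPolynomial (Fin (n + 1)) K)}
  {H : Fin r → MvPolynomial (Fin (n + 1)) K} {L : Type} [Field L] [NumberField L] [Algebra K L]
  {f : Polynomial (Polynomial L)} {A : Fin (n + 1) → Polynomial (Polynomial L)}
  {i j : Fin (n + 1)} {l : Fin r} {P : Polynomial (Polynomial L)} {D : ℕ}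
  {U W : Polynomial (Polynomial L)} {c : Polynomial L}

/-- a bound for the degrees of the coefficients -/
noncomputable def bd {L : Type} [Field L] (p : Polynomial (Polynomial L)) : ℕ :=
  ∑ m ∈ Finset.range (p.natDegree + 1), (p.coeff m).natDegree

theorem le_bd {L : Type} [Field L] (p : Polynomial (Polynomial L)) (m : ℕ) :
    (p.coeff m).natDegree ≤ bd p := by
  by_cases hm : m < p.natDegree + 1
  · exact Finset.single_le_sum (f := fun m => (p.coeff m).natDegree) (fun _ _ => Nat.zero_le _)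
      (Finset.mem_range.2 hm)
  · rw [Polynomial.coeff_eq_zero_of_natDegree_lt (by omega), Polynomial.natDegree_zero]
    exact Nat.zero_le _

theorem Dat.not_finUnits (h : Dat d G H (algebraMap K L) f A i j l P D U W c) :
    ¬ FinUnits d G H := by
  classical
  intro hfin
  let φ : L →+* Qbar := (IsAlgClosed.lift : L →ₐ[ℚ] Qbar)
  -- the primes
  let cf : Polynomial (Polynomial L) → Finset L := fun p => p.coeffs.biUnion Polynomial.coeffs
  let T0 : Finset L := cf f ∪ (Finset.univ.biUnion fun a => cf (A a)) ∪ {2}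
  set S : Set (HeightOneSpectrum (𝓞 L)) := badPrimes T0 with hS
  have hSf : S.Finite := bad_finite T0
  have h20 : (2 : L) ≠ 0 := two_ne_zero
  have h2 : ∀ v, v ∉ S → fv v (2 : L) = 1 := fun v hv =>
    good_one hv (Finset.mem_union_right _ (Finset.mem_singleton_self _)) h20
  have hcf : ∀ p : Polynomial (Polynomial L), cf p ⊆ T0 → ∀ v, v ∉ S → ∀ k m,
      (p.coeff k).coeff m ≠ 0 → fv v ((p.coeff k).coeff m) = 1 := by
    intro p hp v hv k m hm
    refine good_one hv (hp ?_) hm
    refine Finset.mem_biUnion.2 ⟨p.coeff k, Polynomial.coeff_mem_coeffs ?_,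
      Polynomial.coeff_mem_coeffs hm⟩
    intro h0
    rw [h0, Polynomial.coeff_zero] at hm
    exact hm rfl
  have hcff : cf f ⊆ T0 := fun x hx => Finset.mem_union_left _ (Finset.mem_union_left _ hx)
  have hcfA : ∀ a, cf (A a) ⊆ T0 := fun a x hx => Finset.mem_union_left _
    (Finset.mem_union_right _ (Finset.mem_biUnion.2 ⟨a, Finset.mem_univ _, hx⟩))
  let N : ℕ := bd f + (∑ a, bd (A a)) + d + 1
  have hNf : ∀ k, (f.coeff k).natDegree < N := by
    intro k
    have := le_bd f k
    show _ < bd f + (∑ a, bd (A a)) + d + 1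
    omega
  have hNA : ∀ a k, ((A a).coeff k).natDegree < N := by
    intro a k
    have h3 := le_bd (A a) k
    have h4 : bd (A a) ≤ ∑ a, bd (A a) :=
      Finset.single_le_sum (f := fun a => bd (A a)) (fun _ _ => Nat.zero_le _) (Finset.mem_univ a)
    show _ < bd f + (∑ a, bd (A a)) + d + 1
    omega
  -- the points
  let y : ℕ → L := fun m => (2 : L) ^ m
  have hyinj : Function.Injective y := by
    intro a b hab
    have h3 : ((2 ^ a : ℕ) : L) = ((2 ^ b : ℕ) : L) := by
      push_cast
      exact hab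
    exact Nat.pow_right_injective le_rfl (Nat.cast_injective h3)
  let sp : ℕ → Polynomial (Polynomial L) → Polynomial L := fun m p =>
    p.map (Polynomial.evalRingHom (y m))
  have hroot : ∀ m, ∃ θ : Qbar, (sp m f).eval₂ φ θ = 0 := by
    intro m
    have hmon : (sp m f).Monic := h.mon.map _
    obtain ⟨θ, hθ⟩ := IsAlgClosed.exists_root ((sp m f).map φ) (by
      have h1 := (hmon.degree_map φ).trans (h.mon.degree_map (Polynomial.evalRingHom (y m)))
      rw [h1]
      have h2 := h.pos
      intro h3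
      rw [Polynomial.natDegree_pos_iff_degree_pos, h3] at h2
      exact lt_irrefl _ h2)
    refine ⟨θ, ?_⟩
    rw [← Polynomial.eval_map]
    exact hθ
  choose θ hθ using hroot
  have hsp : ∀ m (p : Polynomial (Polynomial L)),
      (sp m p).eval₂ φ (θ m) = ev2 φ (φ (y m)) (θ m) p := by
    intro m p
    show (p.map (Polynomial.evalRingHom (y m))).eval₂ φ (θ m) = _
    rw [Polynomial.eval₂_map]
    unfold ev2
    rw [Polynomial.coe_eval₂RingHom]
    congr 1
    refine RingHom.ext fun q => ?_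
    show φ (q.eval (y m)) = q.eval₂ φ (φ (y m))
    rw [Polynomial.eval₂_at_apply]
  let x : ℕ → Fin (n + 1) → Qbar := fun m a => (sp m (A a)).eval₂ φ (θ m)
  have hgood : {m : ℕ | c.eval (y m) ≠ 0}.Infinite := by
    have h3 : {m : ℕ | c.eval (y m) = 0}.Finite := by
      have h4 : (c.roots.toFinset : Set L).Finite := Finset.finite_toSet _
      refine (h4.preimage hyinj.injOn).subset fun m hm => ?_
      show y m ∈ (c.roots.toFinset : Set L)
      rw [Finset.mem_coe, Multiset.mem_toFinset, Polynomial.mem_roots h.ne]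
      exact hm
    have h5 : {m : ℕ | c.eval (y m) ≠ 0} = {m : ℕ | c.eval (y m) = 0}ᶜ := rfl
    rw [h5]
    exact h3.infinite_compl
  set A1 : Set ℕ := {m : ℕ | c.eval (y m) ≠ 0} with hA1
  have hev := fun m (hm : m ∈ A1) => h.eval φ (φ (y m)) (θ m) (by rw [← hsp]; exact hθ m) (by
    rw [Polynomial.eval₂_at_apply]
    exact (map_ne_zero φ).2 hm)
  have hxe : ∀ m a, x m a = ev2 φ (φ (y m)) (θ m) (A a) := fun m a => hsp m (A a)
  have hx0 : ∀ m ∈ A1, x m ≠ 0 := by
    intro m hm h0
    apply (hev m hm).1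
    rw [← hxe]
    exact congrFun h0 j
  let Q : ℕ → ℙ Qbar (Fin (n + 1) → Qbar) := fun m => if hm : x m ≠ 0 then
    Projectivization.mk Qbar (x m) hm else Projectivization.mk Qbar (fun _ => 1)
      (fun h0 => one_ne_zero (congrFun h0 0))
  have hQ : ∀ m ∈ A1, Q m ∈ pts d G H L φ S N 0 := by
    intro m hm
    refine ⟨x m, hx0 m hm, dif_pos (hx0 m hm), ⟨θ m, sp m f, fun a => sp m (A a), ?_, ?_, hθ m,
      ?_, fun a => ⟨?_, ?_, rfl⟩⟩, ?_⟩
    · exact (h.mon.map _).ne_zero
    · rw [show (sp m f).natDegree = f.natDegree from h.mon.natDegree_map _]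
      exact h.deg
    · intro k
      show Sparse S N 0 ((f.map (Polynomial.evalRingHom (y m))).coeff k)
      rw [Polynomial.coeff_map]
      exact sparse_eval S h2 (f.coeff k) (fun v hv m' hm' => hcf f hcff v hv k m' hm') N (hNf k) m
    · have h3 : (sp m (A a)).natDegree ≤ (A a).natDegree := Polynomial.natDegree_map_le
      have h4 := h.adeg a
      show (sp m (A a)).natDegree ≤ bd f + (∑ a, bd (A a)) + d + 1
      omega
    · intro k
      show Sparse S N 0 (((A a).map (Polynomial.evalRingHom (y m))).coeff k)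
      rw [Polynomial.coeff_map]
      exact sparse_eval S h2 ((A a).coeff k) (fun v hv m' hm' => hcf _ (hcfA a) v hv k m' hm') N
        (hNA a k) m
    · have h3 := (hev m hm).2.1
      have h4 : (fun a => ev2 φ (φ (y m)) (θ m) (A a)) = x m := funext fun a => (hxe m a).symm
      rw [h4] at h3
      exact h3
  -- a point which occurs infinitely often
  have hfinite := hfin L φ S hSf N
  obtain ⟨p, -, hp⟩ : ∃ p, p ∈ pts d G H L φ S N 0 ∧ {m ∈ A1 | Q m = p}.Infinite := by
    by_contra hno
    push Not at hno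
    apply hgood
    have h6 : A1 ⊆ ⋃ p ∈ pts d G H L φ S N 0, {m ∈ A1 | Q m = p} := by
      intro m hm
      simp only [Set.mem_iUnion]
      exact ⟨Q m, hQ m hm, hm, rfl⟩
    exact (hfinite.biUnion fun p hp => hno p hp).subset h6
  obtain ⟨m1, hm1, hQ1⟩ := hp.nonempty
  have hx1 := hx0 m1 hm1
  set v : Qbar := x m1 i / x m1 j with hv
  have hratio : ∀ m ∈ A1, Q m = p → x m i / x m j = v := by
    intro m hm hmp
    have h5 : Q m = Q m1 := hmp.trans hQ1.symm
    have h6 : Q m = Projectivization.mk Qbar (x m) (hx0 m hm) := dif_pos (hx0 m hm)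
    have h7 : Q m1 = Projectivization.mk Qbar (x m1) hx1 := dif_pos hx1
    rw [h6, h7, Projectivization.mk_eq_mk_iff'] at h5
    obtain ⟨a, ha⟩ := h5
    have h8 : ∀ i, x m i = a * x m1 i := fun i => (congrFun ha i).symm
    have h9 : a ≠ 0 := by
      rintro rfl
      apply hx0 m hm
      funext b
      rw [h8, zero_mul]
      rfl
    rw [h8, h8, mul_div_mul_left _ _ h9]
  have hPv : ∀ m ∈ A1, Q m = p →
      (P.map (Polynomial.eval₂RingHom φ v)).eval (φ (y m)) = 0 := by
    intro m hm hmp
    have h3 := (hev m hm).2.2.2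
    rw [← hxe, ← hxe, hratio m hm hmp] at h3
    exact h3
  have hP0 : P.map (Polynomial.eval₂RingHom φ v) = 0 := by
    by_contra h0
    apply hp
    have h4 : ((P.map (Polynomial.eval₂RingHom φ v)).roots.toFinset : Set Qbar).Finite :=
      Finset.finite_toSet _
    refine (h4.preimage (f := fun m => φ (y m)) (φ.injective.comp hyinj).injOn).subset
      fun m hm => ?_
    rw [Set.mem_preimage, Finset.mem_coe, Multiset.mem_toFinset, Polynomial.mem_roots h0,
      Polynomial.IsRoot.def]
    exact hPv m hm.1 hm.2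
  have h3 := (hev m1 hm1).2.2.1
  rw [← hxe, ← hxe, ← hv] at h3
  apply h3
  have h7 := congrArg (fun p => p.coeff P.natDegree) hP0
  simp only [Polynomial.coeff_map, Polynomial.coeff_zero] at h7
  exact h7

end points

end Pool.Agent.D0H85.BD
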