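import Pool.Agent.D0H85.BD.Defs

/-!
A point over an algebraic extension of a field of rational functions in several variables is, with
respect to one of the variables, a nonconstant point over an algebraic extension of a field of
rational functions in one variable.
-/

set_option autoImplicit false
set_option linter.unusedSectionVars false

namespace Pool.Agent.D0H85.BD

open scoped IntermediateField IntermediateField.algebraAdjoinAdjoin

variable {F M : Type} [Field F] [Field M] [Algebra F M]

theorem alg_iff (A : Set M) (z : M) :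
    z ∈ algebraicClosure (IntermediateField.adjoin F A) M ↔
      z ∈ (AlgebraicIndependent.matroid F M).closure A := by
  rw [AlgebraicIndependent.matroid_closure_eq, SetLike.mem_coe, Subalgebra.mem_algebraicClosure,
    mem_algebraicClosure_iff]
  exact (IsFractionRing.isAlgebraic_iff (Algebra.adjoin F A) (IntermediateField.adjoin F A) M).symm

/-- an element which is algebraic over the field without each of the variables -/
theorem alg_all {s : ℕ} (e : Fin s → M) (he : AlgebraicIndependent F e) (z : M)
    (hz : z ∈ algebraicClosure (IntermediateField.adjoin F (Set.range e)) M)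
    (h : ∀ i, z ∈ algebraicClosure (IntermediateField.adjoin F (e '' {i}ᶜ)) M) :
    IsAlgebraic F z := by
  classical
  have hind : (AlgebraicIndependent.matroid F M).Indep (Set.range e) := by
    rw [AlgebraicIndependent.matroid_indep_iff]
    exact he.to_subtype_range
  let J : Option (Fin s) → Set M := fun o => o.elim (Set.range e) fun i => e '' {i}ᶜ
  have h1 := hind.closure_iInter_eq_biInter_closure_of_forall_subset (Js := J) (by
    rintro (_ | i)
    · exact subset_rfl
    · exact Set.image_subset_range _ _)
  have h2 : (⋂ i, J i) = ∅ := by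
    rw [Set.eq_empty_iff_forall_notMem]
    intro y hy
    rw [Set.mem_iInter] at hy
    obtain ⟨i, rfl⟩ : y ∈ Set.range e := hy none
    obtain ⟨j, hj, hij⟩ : e i ∈ e '' {i}ᶜ := hy (some i)
    exact hj (he.injective hij)
  have h3 : z ∈ (AlgebraicIndependent.matroid F M).closure ∅ := by
    rw [← h2, h1, Set.mem_iInter]
    rintro (_ | i)
    · exact (alg_iff _ _).1 hz
    · exact (alg_iff _ _).1 (h i)
  rw [AlgebraicIndependent.matroid_closure_eq, SetLike.mem_coe, Subalgebra.mem_algebraicClosure]
    at h3
  have h4 : Algebra.IsAlgebraic F (Algebra.adjoin F (∅ : Set M)) := by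
    rw [Algebra.adjoin_empty]
    infer_instance
  exact h3.restrictScalars F

variable [IsAlgClosed M] {n d s : ℕ}

/-- **The main step.** -/
theorem exists_one (e : Fin s → M) (he : AlgebraicIndependent F e) (θ : M)
    (F1 : IntermediateField F M) (hF1 : F1 = IntermediateField.adjoin F (Set.range e))
    (f : Polynomial F1) (hf : f ≠ 0) (hfd : f.natDegree ≤ d)
    (hθ : Polynomial.aeval θ f = 0) (x : Fin (n + 1) → M)
    (hx : ∀ a, ∃ q : Polynomial F1, x a = Polynomial.aeval θ q) (a b : Fin (n + 1))
    (hab : ¬ IsAlgebraic F (x a / x b)) :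
    ∃ (Ω : Type) (_ : Field Ω) (_ : IsAlgClosed Ω) (_ : Algebra Ω M) (ψ : F →+* Ω) (t : M),
      (algebraMap Ω M).comp ψ = algebraMap F M ∧ Transcendental Ω t ∧ DegLE Ω⟮t⟯ d x ∧
        ¬ IsConst Ω x := by
  classical
  have hθa : IsAlgebraic F1 θ := ⟨f, hf, hθ⟩
  have hxa : ∀ c, IsAlgebraic F1 (x c) := by
    intro c
    obtain ⟨q, hq⟩ := hx c
    rw [hq]
    have h1 : Algebra.adjoin F1 {θ} ≤ (algebraicClosure F1 M).toSubalgebra := by
      apply Algebra.adjoin_le
      rintro _ rfl
      exact mem_algebraicClosure_iff.2 hθa
    exact mem_algebraicClosure_iff.1 (h1 (Polynomial.aeval_mem_adjoin_singleton F1 θ))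
  have hza : x a / x b ∈ algebraicClosure F1 M := by
    rw [mem_algebraicClosure_iff, div_eq_mul_inv]
    exact (hxa a).mul (hxa b).inv
  obtain ⟨i, hi⟩ : ∃ i, x a / x b ∉
      algebraicClosure (IntermediateField.adjoin F (e '' {i}ᶜ)) M := by
    by_contra hno
    push Not at hno
    exact hab (alg_all e he _ (hF1 ▸ hza) hno)
  set E : IntermediateField F M := IntermediateField.adjoin F (e '' {i}ᶜ) with hE
  set Ω : IntermediateField E M := algebraicClosure E M with hΩ
  have hΩc : IsAlgClosed Ω := IsAlgClosure.isAlgClosed E
  have ht : Transcendental Ω (e i) := by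
    apply Transcendental.algebraicClosure
    have h1 := he.transcendental_adjoin (s := {i}ᶜ) (i := i) (by simp)
    intro h2
    exact h1 ((IsFractionRing.isAlgebraic_iff (Algebra.adjoin F (e '' {i}ᶜ)) E M).2 h2)
  refine ⟨Ω, inferInstance, hΩc, inferInstance, (algebraMap E Ω).comp (algebraMap F E), e i, ?_, ht,
    ?_, ?_⟩
  · rfl
  · -- the degree
    set T : IntermediateField Ω M := IntermediateField.adjoin Ω {e i} with hT
    have hmem : ∀ z ∈ F1, z ∈ T := by
      have h1 : F1 ≤ (T.restrictScalars E).restrictScalars F := by
        rw [hF1, IntermediateField.adjoin_le_iff]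
        rintro _ ⟨j, rfl⟩
        by_cases hj : j = i
        · rw [hj]
          exact IntermediateField.mem_adjoin_simple_self Ω (e i)
        · have h2 : e j ∈ E := IntermediateField.subset_adjoin _ _ ⟨j, hj, rfl⟩
          have h3 : e j ∈ Ω := by
            rw [hΩ, mem_algebraicClosure_iff]
            exact isAlgebraic_algebraMap (⟨e j, h2⟩ : E)
          exact T.algebraMap_mem (⟨e j, h3⟩ : Ω)
      exact fun z hz => h1 hz
    let ι : F1 →+* T :=
      { toFun := fun z => ⟨z.1, hmem z.1 z.2⟩
        map_one' := rfl
        map_mul' := fun _ _ => rfl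
        map_zero' := rfl
        map_add' := fun _ _ => rfl }
    have hι : (algebraMap T M).comp ι = algebraMap F1 M := rfl
    have hev : ∀ q : Polynomial F1, Polynomial.aeval θ (q.map ι) = Polynomial.aeval θ q := by
      intro q
      rw [Polynomial.aeval_def, Polynomial.aeval_def, Polynomial.eval₂_map, hι]
    have hfι : f.map ι ≠ 0 := (Polynomial.map_ne_zero_iff ι.injective).2 hf
    have hθT : IsIntegral T θ := (show IsAlgebraic T θ from ⟨f.map ι, hfι, by
      rw [hev, hθ]⟩).isIntegral
    have h1 : Module.finrank T T⟮θ⟯ ≤ d := by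
      rw [IntermediateField.adjoin.finrank hθT]
      refine (Polynomial.natDegree_le_of_dvd (minpoly.dvd T θ (by rw [hev, hθ])) hfι).trans ?_
      rw [Polynomial.natDegree_map]
      exact hfd
    have h2 : IntermediateField.adjoin T {z : M | ∃ i j, z = x i / x j} ≤ T⟮θ⟯ := by
      rw [IntermediateField.adjoin_le_iff]
      rintro _ ⟨c, c', rfl⟩
      have h3 : ∀ c, x c ∈ T⟮θ⟯ := by
        intro c
        obtain ⟨q, hq⟩ := hx c
        rw [hq, ← hev]
        exact (IntermediateField.algebra_adjoin_le_adjoin T {θ})
          (Polynomial.aeval_mem_adjoin_singleton T θ)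
      exact div_mem (h3 c) (h3 c')
    have : FiniteDimensional T T⟮θ⟯ := IntermediateField.adjoin.finiteDimensional hθT
    have h4 : Module.rank T (IntermediateField.adjoin T {z : M | ∃ i j, z = x i / x j}) ≤
        Module.rank T T⟮θ⟯ :=
      LinearMap.rank_le_of_injective (IntermediateField.inclusion h2).toLinearMap
        (IntermediateField.inclusion h2).injective
    refine h4.trans ?_
    rw [← Module.finrank_eq_rank]
    exact_mod_cast h1
  · intro hc
    obtain ⟨c, hc⟩ := hc a b
    apply hi
    rw [hc]
    exact c.2

end Pool.Agent.D0H85.BD
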