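import Pool.Agent.D0H85.BD.Germ
import Pool.Agent.D0H85.BD.Indep

/-!
From sparse points of bounded degree to points over function fields.
-/

set_option autoImplicit false
set_option linter.unusedSectionVars false

namespace Pool.Agent.D0H85.BD

open NumberField IsDedekindDomain Height Filter Topology
open scoped IntermediateField
open Pool.Agent.K1H83.VN
open Pool.Agent.D0H85.SP
open Pool.Agent.W180.OP (Pl av wt fv fv_support_finite wt_nonneg)
open Pool.Agent.Helper259.AbsHt (Qbar absLogHeight absLogHeight_eq absLogHeight_root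
  absLogHeight_le_sum absLogHeight_smul absLogHeight_nonneg absLogHeight_zero)

section general

variable {k B : Type} [Field k] [Field B] {σ : Sc}

theorem gm_div (f g : ℕ → B) (hg : gm σ g ≠ 0) :
    gm σ (fun t => f t / g t) = gm σ f / gm σ g := by
  rw [eq_div_iff hg, ← map_mul, gm_eq]
  filter_upwards [(gm_ne g).1 hg] with t ht
  show f t / g t * g t = f t
  rw [div_mul_cancel₀ _ ht]

/-- values of polynomials at germs -/
theorem eval_li (φ : k →+* B) {ι : Type} (x : ι → ℕ → B) (g : MvPolynomial ι k) :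
    g.eval₂ ((gm σ).comp ((Pi.constRingHom ℕ B).comp φ)) (fun i => gm σ (x i)) =
      gm σ (fun t => g.eval₂ φ (fun i => x i t)) := by
  have h1 : (fun t => g.eval₂ φ (fun i => x i t)) =
      g.eval₂ ((Pi.constRingHom ℕ B).comp φ) x := by
    funext t
    have h2 := MvPolynomial.hom_eval₂ g ((Pi.constRingHom ℕ B).comp φ)
      (Pi.evalRingHom (fun _ => B) t) x
    have h3 : (Pi.evalRingHom (fun _ : ℕ => B) t) (g.eval₂ ((Pi.constRingHom ℕ B).comp φ) x) =
        g.eval₂ ((Pi.constRingHom ℕ B).comp φ) x t := rfl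
    rw [← h3, h2]
    rfl
  rw [h1]
  have h4 := MvPolynomial.hom_eval₂ g ((Pi.constRingHom ℕ B).comp φ) (gm σ) x
  rw [h4]

end general

variable {k : Type} [Field k] [NumberField k] {σ : Sc} {S : Finset (Pl k)}

theorem li_alg (φ : k →+* Qbar) : (li φ σ).comp (algebraMap k (G k σ)) =
    (gm σ).comp ((Pi.constRingHom ℕ Qbar).comp φ) := by
  refine RingHom.ext fun z => ?_
  show li φ σ (algebraMap k (G k σ) z) = _
  rw [alg_eq, li_gm]
  rfl

/-- **The main step.** -/
theorem core (hS : ∀ w : InfinitePlace k, Sum.inl w ∈ S) {n N d δ r : ℕ} (φ : k →+* Qbar)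
    (GG : Set (MvPolynomial (Fin (n + 1)) k)) (H : Fin r → MvPolynomial (Fin (n + 1)) k)
    (θ : ℕ → Qbar) (x : Fin (n + 1) → ℕ → Qbar)
    (c : Fin (d + 1) ⊕ (Fin (n + 1) × Fin δ) → ℕ → k)
    (a u : Fin (d + 1) ⊕ (Fin (n + 1) × Fin δ) → Fin N → ℕ → k)
    (hc : ∀ i t, c i t = ∑ j, a i j t * u i j t) (hu : ∀ i j t, IsSU S (u i j t))
    (ha : ∀ i j, Sm σ fun t => logHeight₁ (a i j t))
    (hf : ∀ t, ∃ j, c (Sum.inl j) t ≠ 0)
    (hθ : ∀ t, ∑ j : Fin (d + 1), φ (c (Sum.inl j) t) * θ t ^ (j : ℕ) = 0)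
    (hx : ∀ i t, x i t = ∑ j : Fin δ, φ (c (Sum.inr (i, j)) t) * θ t ^ (j : ℕ))
    (hL : ∀ t, σ.L t = absLogHeight fun i => x i t)
    (hg : ∀ g ∈ GG, ∀ t, g.eval₂ φ (fun i => x i t) = 0)
    (hHx : ∀ t, ∃ l, (H l).eval₂ φ (fun i => x i t) ≠ 0) :
    ∃ (Ω : Type) (_ : Field Ω) (_ : IsAlgClosed Ω) (M : Type) (_ : Field M) (_ : Algebra Ω M)
      (ψ : k →+* Ω) (t : M) (y : Fin (n + 1) → M), Transcendental Ω t ∧ y ≠ 0 ∧
        OnOff GG H ((algebraMap Ω M).comp ψ) y ∧ DegLE Ω⟮t⟯ d y ∧ ¬ IsConst Ω y := by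
  classical
  -- the fields
  let M : Type := AlgebraicClosure (G Qbar σ)
  let ν : G Qbar σ →+* M := algebraMap (G Qbar σ) M
  let lam : G k σ →+* M := ν.comp (li φ σ)
  let κ : FF k σ →+* M := lam.comp (FF k σ).subtype
  let _ : Algebra (FF k σ) M := κ.toAlgebra
  have hκ : algebraMap (FF k σ) M = κ := rfl
  -- the germs
  let A : Fin (d + 1) ⊕ (Fin (n + 1) × Fin δ) → Fin N → FF k σ := fun i j =>
    ⟨gm σ (a i j), (gm_mem_FF _).2 (ha i j)⟩
  let U : (Fin (d + 1) ⊕ (Fin (n + 1) × Fin δ)) × Fin N → G k σ := fun p => gm σ (u p.1 p.2)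
  have hUS : ∀ p, SU S (U p) := by
    intro p
    filter_upwards [rep_gm (σ := σ) (u p.1 p.2)] with t ht
    show IsSU S (rep (gm σ (u p.1 p.2)) t)
    rw [ht]
    exact hu _ _ _
  have hU0 : ∀ p, U p ≠ 0 := fun p => (hUS p).ne_zero
  have hCs : ∀ i, gm σ (c i) = ∑ j, (A i j : G k σ) * U (i, j) := by
    intro i
    have h1 : c i = ∑ j, a i j * u i j := by
      funext t
      rw [Finset.sum_apply]
      exact hc i t
    show gm σ (c i) = ∑ j, gm σ (a i j) * gm σ (u i j)
    rw [h1, map_sum]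
    exact Finset.sum_congr rfl fun j _ => map_mul _ _ _
  -- a basis of the units
  obtain ⟨s, b, m, hind, hm⟩ := exists_basis U hU0 (FF k σ) fun x n hn h => root_mem x n hn h
  set e : Fin s → G k σ := fun i => pw U (b i) with he
  have heS : ∀ i, SU S (e i) := fun i => SU.prod _ _ fun j _ => (hUS j).zpow _
  have he0 : ∀ i, e i ≠ 0 := fun i => (heS i).ne_zero
  let e' : Fin s → M := fun i => lam (e i)
  have hai : AlgebraicIndependent (FF k σ) e' := by
    rw [AlgebraicIndependent, injective_iff_map_eq_zero]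
    intro p hp
    apply evg_inj hS e heS hind p
    apply lam.injective
    rw [map_zero, ← hp]
    show lam (MvPolynomial.eval₂ (FF k σ).subtype e p) = MvPolynomial.aeval e' p
    rw [MvPolynomial.hom_eval₂, MvPolynomial.aeval_def, hκ]
  let F1 : IntermediateField (FF k σ) M := IntermediateField.adjoin (FF k σ) (Set.range e')
  have hF1e : ∀ i, lam (e i) ∈ F1 := fun i => IntermediateField.subset_adjoin _ _ ⟨i, rfl⟩
  have hF1F : ∀ z ∈ FF k σ, lam z ∈ F1 := fun z hz => F1.algebraMap_mem (⟨z, hz⟩ : FF k σ)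
  have hF1U : ∀ p, lam (U p) ∈ F1 := by
    intro p
    have h1 : U p = (U p / ∏ i, e i ^ m p i) * ∏ i, e i ^ m p i := by
      rw [div_mul_cancel₀]
      exact Finset.prod_ne_zero_iff.2 fun i _ => zpow_ne_zero _ (he0 i)
    rw [h1, map_mul, map_prod]
    refine mul_mem (hF1F _ (hm p)) (prod_mem fun i _ => ?_)
    rw [map_zpow₀]
    exact zpow_mem (hF1e i) _
  have hF1c : ∀ i, ν (gm σ fun t => φ (c i t)) ∈ F1 := by
    intro i
    have h1 : ν (gm σ fun t => φ (c i t)) = lam (gm σ (c i)) := by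
      show _ = ν (li φ σ (gm σ (c i)))
      rw [li_gm]
    rw [h1, hCs, map_sum]
    refine sum_mem fun j _ => ?_
    rw [map_mul]
    exact mul_mem (hF1F _ (A i j).2) (hF1U _)
  let c' : Fin (d + 1) ⊕ (Fin (n + 1) × Fin δ) → F1 := fun i => ⟨_, hF1c i⟩
  -- the polynomials
  let Θ : M := ν (gm σ θ)
  let X : Fin (n + 1) → M := fun i => ν (gm σ (x i))
  let f' : Polynomial F1 := ∑ j : Fin (d + 1), Polynomial.C (c' (Sum.inl j)) *
    Polynomial.X ^ (j : ℕ)
  have hf'c : ∀ j : Fin (d + 1), f'.coeff (j : ℕ) = c' (Sum.inl j) := by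
    intro j
    show Polynomial.coeff (∑ j : Fin (d + 1), _) (j : ℕ) = _
    rw [Polynomial.finsetSum_coeff]
    simp only [Polynomial.coeff_C_mul_X_pow]
    rw [Finset.sum_eq_single j]
    · rw [if_pos rfl]
    · intro b _ hb
      rw [if_neg]
      intro h
      exact hb (Fin.ext h.symm)
    · intro h
      exact absurd (Finset.mem_univ _) h
  have hf'd : f'.natDegree ≤ d := by
    refine Polynomial.natDegree_sum_le_of_forall_le _ _ fun j _ => ?_
    exact (Polynomial.natDegree_C_mul_X_pow_le _ _).trans (by omega)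
  have hf'0 : f' ≠ 0 := by
    intro h0
    choose jt hjt using hf
    obtain ⟨j1, -, hj1⟩ := const_of_finite (σ := σ) jt Set.univ Set.finite_univ
      (Eventually.of_forall fun _ => Set.mem_univ _)
    have h1 := hf'c j1
    rw [h0, Polynomial.coeff_zero] at h1
    have h2 : ν (gm σ fun t => φ (c (Sum.inl j1) t)) = 0 := (congrArg Subtype.val h1).symm
    rw [map_eq_zero] at h2
    have h3 : gm σ (fun t => φ (c (Sum.inl j1) t)) ≠ 0 := by
      rw [gm_ne]
      filter_upwards [hj1] with t ht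
      rw [← ht]
      exact (map_ne_zero φ).2 (hjt t)
    exact h3 h2
  have hpow : ∀ (i : Fin (d + 1) ⊕ (Fin (n + 1) × Fin δ)) (j : ℕ),
      ((c' i : F1) : M) * Θ ^ j = ν (gm σ fun t => φ (c i t) * θ t ^ j) := by
    intro i j
    have h1 : (fun t => φ (c i t) * θ t ^ j) = (fun t => φ (c i t)) * θ ^ j := rfl
    rw [h1, map_mul, map_mul, map_pow, map_pow]
  have hf'θ : Polynomial.aeval Θ f' = 0 := by
    rw [map_sum]
    have h1 : ∀ j : Fin (d + 1), Polynomial.aeval Θ (Polynomial.C (c' (Sum.inl j)) *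
        Polynomial.X ^ (j : ℕ)) = ν (gm σ fun t => φ (c (Sum.inl j) t) * θ t ^ (j : ℕ)) := by
      intro j
      rw [map_mul, map_pow, Polynomial.aeval_C, Polynomial.aeval_X, ← hpow]
      rfl
    rw [Finset.sum_congr rfl fun j _ => h1 j, ← map_sum, ← map_sum]
    have h2 : (∑ j : Fin (d + 1), fun t => φ (c (Sum.inl j) t) * θ t ^ (j : ℕ)) = 0 := by
      funext t
      rw [Finset.sum_apply]
      exact hθ t
    rw [h2, map_zero, map_zero]
  have hX : ∀ i, ∃ q : Polynomial F1, X i = Polynomial.aeval Θ q := by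
    intro i
    refine ⟨∑ j : Fin δ, Polynomial.C (c' (Sum.inr (i, j))) * Polynomial.X ^ (j : ℕ), ?_⟩
    rw [map_sum]
    have h1 : ∀ j : Fin δ, Polynomial.aeval Θ (Polynomial.C (c' (Sum.inr (i, j))) *
        Polynomial.X ^ (j : ℕ)) = ν (gm σ fun t => φ (c (Sum.inr (i, j)) t) * θ t ^ (j : ℕ)) := by
      intro j
      rw [map_mul, map_pow, Polynomial.aeval_C, Polynomial.aeval_X, ← hpow]
      rfl
    rw [Finset.sum_congr rfl fun j _ => h1 j, ← map_sum, ← map_sum]
    have h2 : (∑ j : Fin δ, fun t => φ (c (Sum.inr (i, j)) t) * θ t ^ (j : ℕ)) = x i := by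
      funext t
      rw [Finset.sum_apply]
      exact (hx i t).symm
    rw [h2]
  -- the point is not zero
  have hX0 : ∃ b, gm σ (x b) ≠ 0 := by
    by_contra h0
    push Not at h0
    have h1 : ∀ᶠ t in (σ.𝒰 : Filter ℕ), ∀ i, x i t = 0 := by
      rw [Filter.eventually_all]
      intro i
      have h2 : gm σ (x i) = gm σ 0 := by
        rw [map_zero]
        exact h0 i
      exact (gm_eq _ _).1 h2
    obtain ⟨t, h2, h3⟩ := (h1.and (L_pos (σ := σ))).exists
    rw [hL t] at h3
    have h4 : (fun i => x i t) = 0 := funext h2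
    rw [h4, absLogHeight_zero] at h3
    exact lt_irrefl _ h3
  obtain ⟨b0, hb0⟩ := hX0
  -- the point is not algebraic over the small germs
  have hnal : ∃ a0, ¬ IsAlgebraic (FF k σ) (X a0 / X b0) := by
    by_contra hno
    push Not at hno
    have h1 : ∀ a0, Sm σ fun t => absLogHeight ![1, x a0 t / x b0 t] := by
      intro a0
      obtain ⟨p, hp, hpz⟩ := hno a0
      refine small_alg φ (fun t => x a0 t / x b0 t) p hp ?_
      apply ν.injective
      rw [map_zero, ← hpz, Polynomial.hom_eval₂, Polynomial.aeval_def, gm_div _ _ hb0, map_div₀]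
      rfl
    have h2 : Sm σ fun t => ∑ a0, absLogHeight ![1, x a0 t / x b0 t] :=
      Sm.sum _ fun a0 _ => h1 a0
    obtain ⟨t, e1, e2, e3⟩ := ((h2 (1 / 2) (by norm_num)).and
      ((L_pos (σ := σ)).and ((gm_ne _).1 hb0))).exists
    have e4 := absLogHeight_le_sum fun a0 => x a0 t / x b0 t
    have e5 : (fun a0 => x a0 t / x b0 t) = (x b0 t)⁻¹ • fun a0 => x a0 t := by
      funext a0
      rw [Pi.smul_apply, smul_eq_mul, div_eq_inv_mul]
    rw [e5, absLogHeight_smul _ (inv_ne_zero e3), ← hL] at e4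
    linarith
  obtain ⟨a0, ha0⟩ := hnal
  obtain ⟨Ω, _, _, _, ψ, t, hψ, ht, hdeg, hcon⟩ := exists_one (d := d) e' hai Θ F1 rfl f' hf'0 hf'd
    hf'θ X hX a0 b0 ha0
  have hcomp : (algebraMap Ω M).comp (ψ.comp (algebraMap k (FF k σ))) =
      ν.comp ((gm σ).comp ((Pi.constRingHom ℕ Qbar).comp φ)) := by
    rw [← RingHom.comp_assoc, hψ, ← li_alg]
    rfl
  have hev : ∀ g : MvPolynomial (Fin (n + 1)) k,
      g.eval₂ ((algebraMap Ω M).comp (ψ.comp (algebraMap k (FF k σ)))) X =
        ν (gm σ fun t => g.eval₂ φ fun i => x i t) := by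
    intro g
    rw [hcomp, ← eval_li, MvPolynomial.hom_eval₂]
  refine ⟨Ω, inferInstance, inferInstance, M, inferInstance, inferInstance,
    ψ.comp (algebraMap k (FF k σ)), t, X, ht, ?_, ⟨?_, ?_⟩, hdeg, hcon⟩
  · intro h0
    apply hb0
    have h1 : ν (gm σ (x b0)) = 0 := congrFun h0 b0
    exact (map_eq_zero ν).1 h1
  · intro g hgG
    rw [hev]
    have h1 : (fun t => g.eval₂ φ fun i => x i t) = 0 := by
      funext t
      exact hg g hgG t
    rw [h1, map_zero, map_zero]
  · choose lt hlt using hHx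
    obtain ⟨l1, -, hl1⟩ := const_of_finite (σ := σ) lt Set.univ Set.finite_univ
      (Eventually.of_forall fun _ => Set.mem_univ _)
    refine ⟨l1, ?_⟩
    rw [hev, Ne, map_eq_zero]
    have h1 : gm σ (fun t => (H l1).eval₂ φ fun i => x i t) ≠ 0 := by
      rw [gm_ne]
      filter_upwards [hl1] with t ht
      rw [← ht]
      exact hlt t
    exact h1

end Pool.Agent.D0H85.BD
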