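import Pool.Agent.D0H85.BD.Indep

/-!
Nonconstant points of bounded degree over a field of rational functions, given by polynomials.
-/

set_option autoImplicit false
set_option linter.unusedSectionVars false

namespace Pool.Agent.D0H85.BD

open scoped IntermediateField
open Polynomial (C X)

/-- the homogeneous form of a polynomial at `w`, `v` -/
noncomputable def Hm {L B : Type} [CommRing L] [CommRing B] (ρ : L →+* B) (D : ℕ) (p : Polynomial L) (w v : B) : B :=
  ∑ m ∈ Finset.range (D + 1), ρ (p.coeff m) * w ^ m * v ^ (D - m)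

/-- the same for a polynomial in two variables -/
noncomputable def HH {L B : Type} [CommRing L] [CommRing B] (ρ : L →+* B) (D : ℕ) (P : Polynomial (Polynomial L))
    (x w v : B) : B :=
  ∑ j ∈ Finset.range (P.natDegree + 1), Hm ρ D (P.coeff j) w v * x ^ j

section

variable {L B B' : Type} [CommRing L] [CommRing B] [CommRing B']

theorem map_Hm (ρ : L →+* B) (D : ℕ) (p : Polynomial L) (w v : B) (τ : B →+* B') :
    τ (Hm ρ D p w v) = Hm (τ.comp ρ) D p (τ w) (τ v) := by
  unfold Hm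
  rw [map_sum]
  refine Finset.sum_congr rfl fun m _ => ?_
  rw [map_mul, map_mul, map_pow, map_pow]
  rfl

theorem map_HH (ρ : L →+* B) (D : ℕ) (P : Polynomial (Polynomial L)) (x w v : B) (τ : B →+* B') :
    τ (HH ρ D P x w v) = HH (τ.comp ρ) D P (τ x) (τ w) (τ v) := by
  unfold HH
  rw [map_sum]
  refine Finset.sum_congr rfl fun j _ => ?_
  rw [map_mul, map_pow, map_Hm]

theorem Hm_field {M : Type} [Field M] (ρ : L →+* M) (D : ℕ) (p : Polynomial L) (w v : M)
    (hv : v ≠ 0) (hp : p.natDegree ≤ D) : Hm ρ D p w v = v ^ D * p.eval₂ ρ (w / v) := by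
  unfold Hm
  rw [Polynomial.eval₂_eq_sum_range' ρ (n := D + 1) (by omega), Finset.mul_sum]
  refine Finset.sum_congr rfl fun m hm => ?_
  have h1 : m ≤ D := by
    have := Finset.mem_range.1 hm
    omega
  have h2 : v ^ D = v ^ (D - m) * v ^ m := by rw [← pow_add, Nat.sub_add_cancel h1]
  rw [div_pow, h2]
  field_simp

end

/-- the constants -/
noncomputable def CC (L : Type) [CommRing L] : L →+* Polynomial (Polynomial L) := C.comp C

/-- **The data.** -/
structure Dat {K : Type} [Field K] {n r : ℕ} (d : ℕ) (G : Set (MvPolynomial (Fin (n + 1)) K))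
    (H : Fin r → MvPolynomial (Fin (n + 1)) K) {L : Type} [Field L] (ψ : K →+* L)
    (f : Polynomial (Polynomial L)) (A : Fin (n + 1) → Polynomial (Polynomial L))
    (i j : Fin (n + 1)) (l : Fin r) (P : Polynomial (Polynomial L)) (D : ℕ)
    (U W : Polynomial (Polynomial L)) (c : Polynomial L) : Prop where
  mon : f.Monic
  pos : 0 < f.natDegree
  deg : f.natDegree ≤ d
  adeg : ∀ a, (A a).natDegree < d
  eqn : ∀ g ∈ G, f ∣ g.eval₂ ((CC L).comp ψ) A
  rel : f ∣ HH (CC L) D P (C X) (A i) (A j)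
  pdeg : ∀ m, (P.coeff m).natDegree ≤ D
  bez : U * f + W * ((H l).eval₂ ((CC L).comp ψ) A * A j * Hm (CC L) D P.leadingCoeff (A i) (A j)) =
    C c
  ne : c ≠ 0

section eval

variable {K : Type} [Field K] {n r d : ℕ} {G : Set (MvPolynomial (Fin (n + 1)) K)}
  {H : Fin r → MvPolynomial (Fin (n + 1)) K} {L : Type} [Field L] {ψ : K →+* L}
  {f : Polynomial (Polynomial L)} {A : Fin (n + 1) → Polynomial (Polynomial L)}
  {i j : Fin (n + 1)} {l : Fin r} {P : Polynomial (Polynomial L)} {D : ℕ}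
  {U W : Polynomial (Polynomial L)} {c : Polynomial L}

/-- evaluation -/
noncomputable def ev2 {M : Type} [Field M] (ρ : L →+* M) (t θ : M) :
    Polynomial (Polynomial L) →+* M :=
  Polynomial.eval₂RingHom (Polynomial.eval₂RingHom ρ t) θ

theorem ev2_C {M : Type} [Field M] (ρ : L →+* M) (t θ : M) (p : Polynomial L) :
    ev2 ρ t θ (C p) = p.eval₂ ρ t := by
  unfold ev2
  rw [Polynomial.coe_eval₂RingHom, Polynomial.eval₂_C, Polynomial.coe_eval₂RingHom]

theorem ev2_CC {M : Type} [Field M] (ρ : L →+* M) (t θ : M) : (ev2 ρ t θ).comp (CC L) = ρ := by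
  refine RingHom.ext fun z => ?_
  show ev2 ρ t θ (C (C z)) = _
  rw [ev2_C, Polynomial.eval₂_C]

theorem ev2_X {M : Type} [Field M] (ρ : L →+* M) (t θ : M) : ev2 ρ t θ (C X) = t := by
  rw [ev2_C, Polynomial.eval₂_X]

theorem ev2_form {M : Type} [Field M] (ρ : L →+* M) (t θ : M)
    (g : MvPolynomial (Fin (n + 1)) K) (A : Fin (n + 1) → Polynomial (Polynomial L)) :
    ev2 ρ t θ (g.eval₂ ((CC L).comp ψ) A) = g.eval₂ (ρ.comp ψ) fun a => ev2 ρ t θ (A a) := by
  rw [MvPolynomial.hom_eval₂, ← RingHom.comp_assoc, ev2_CC]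

/-- **evaluation of the data** -/
theorem Dat.eval (h : Dat d G H ψ f A i j l P D U W c) {M : Type} [Field M] (ρ : L →+* M)
    (t θ : M) (hθ : ev2 ρ t θ f = 0) (hc : c.eval₂ ρ t ≠ 0) :
    ev2 ρ t θ (A j) ≠ 0 ∧ OnOff G H (ρ.comp ψ) (fun a => ev2 ρ t θ (A a)) ∧
      (P.leadingCoeff).eval₂ ρ (ev2 ρ t θ (A i) / ev2 ρ t θ (A j)) ≠ 0 ∧
      (P.map (Polynomial.eval₂RingHom ρ (ev2 ρ t θ (A i) / ev2 ρ t θ (A j)))).eval t = 0 := by
  have h1 := congrArg (ev2 ρ t θ) h.bez
  rw [map_add, map_mul, hθ, mul_zero, zero_add, map_mul, map_mul, map_mul, ev2_C, ev2_form,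
    map_Hm, ev2_CC] at h1
  rw [← h1] at hc
  have h2 := right_ne_zero_of_mul hc
  have h3 := right_ne_zero_of_mul h2
  have h4 := left_ne_zero_of_mul h2
  have h5 := right_ne_zero_of_mul h4
  have h6 := left_ne_zero_of_mul h4
  refine ⟨h5, ⟨fun g hg => ?_, l, h6⟩, ?_, ?_⟩
  · obtain ⟨q, hq⟩ := h.eqn g hg
    rw [← ev2_form, hq, map_mul, hθ, zero_mul]
  · rw [Hm_field ρ D _ _ _ h5 (show P.leadingCoeff.natDegree ≤ D from h.pdeg _)] at h3
    exact right_ne_zero_of_mul h3
  · obtain ⟨q, hq⟩ := h.rel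
    have h7 := congrArg (ev2 ρ t θ) hq
    rw [map_mul, hθ, zero_mul, map_HH, ev2_CC, ev2_X] at h7
    unfold HH at h7
    have h8 : ∀ m ∈ Finset.range (P.natDegree + 1),
        Hm ρ D (P.coeff m) (ev2 ρ t θ (A i)) (ev2 ρ t θ (A j)) * t ^ m = ev2 ρ t θ (A j) ^ D *
          ((P.coeff m).eval₂ ρ (ev2 ρ t θ (A i) / ev2 ρ t θ (A j)) * t ^ m) := by
      intro m _
      rw [Hm_field ρ D _ _ _ h5 (h.pdeg _), mul_assoc]
    rw [Finset.sum_congr rfl h8, ← Finset.mul_sum] at h7
    have h9 := (mul_eq_zero.1 h7).resolve_left (pow_ne_zero _ h5)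
    rw [Polynomial.eval_map, Polynomial.eval₂_eq_sum_range]
    exact h9

end eval

/-- a bound for the degree of a point -/
theorem degLE_of_root {F M : Type} [Field F] [Field M] [Algebra F M] {n d : ℕ} (θ : M)
    (f : Polynomial F) (hf : f ≠ 0) (hfd : f.natDegree ≤ d) (hθ : Polynomial.aeval θ f = 0)
    (x : Fin (n + 1) → M) (hx : ∀ a, ∃ q : Polynomial F, x a = Polynomial.aeval θ q) :
    DegLE F d x := by
  have hint : IsIntegral F θ := (show IsAlgebraic F θ from ⟨f, hf, hθ⟩).isIntegral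
  have h1 : Module.finrank F F⟮θ⟯ ≤ d := by
    rw [IntermediateField.adjoin.finrank hint]
    exact (Polynomial.natDegree_le_of_dvd (minpoly.dvd F θ hθ) hf).trans hfd
  have h2 : IntermediateField.adjoin F {z : M | ∃ i j, z = x i / x j} ≤ F⟮θ⟯ := by
    rw [IntermediateField.adjoin_le_iff]
    rintro _ ⟨c, c', rfl⟩
    have h3 : ∀ c, x c ∈ F⟮θ⟯ := by
      intro c
      obtain ⟨q, hq⟩ := hx c
      rw [hq]
      exact (IntermediateField.algebra_adjoin_le_adjoin F {θ})
        (Polynomial.aeval_mem_adjoin_singleton F θ)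
    exact div_mem (h3 c) (h3 c')
  have : FiniteDimensional F F⟮θ⟯ := IntermediateField.adjoin.finiteDimensional hint
  have h4 : Module.rank F (IntermediateField.adjoin F {z : M | ∃ i j, z = x i / x j}) ≤
      Module.rank F F⟮θ⟯ :=
    LinearMap.rank_le_of_injective (IntermediateField.inclusion h2).toLinearMap
      (IntermediateField.inclusion h2).injective
  refine h4.trans ?_
  rw [← Module.finrank_eq_rank]
  exact_mod_cast h1

end Pool.Agent.D0H85.BD
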