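import Pool.Agent.D0H85.SP.Conv
import Pool.Agent.Helper259.AbsHt
import Pool.Agent.H58W.HtNorth

/-!
Points of bounded degree: definitions.
-/

set_option autoImplicit false
set_option linter.unusedSectionVars false

namespace Pool.Agent.D0H85.BD

open NumberField IsDedekindDomain Height
open scoped LinearAlgebra.Projectivization IntermediateField
open Pool.Agent.Helper259.AbsHt (Qbar absLogHeight)
open Pool.Agent.D0H85.SP (Sparse)

/-- the field generated by the ratios of the homogeneous coordinates has degree at most `d` -/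
def DegLE (F : Type) {M : Type} [Field F] [Field M] [Algebra F M] {n : ℕ} (d : ℕ)
    (y : Fin (n + 1) → M) : Prop :=
  Module.rank F (IntermediateField.adjoin F {z : M | ∃ i j, z = y i / y j}) ≤ (d : Cardinal)

/-- all ratios of the homogeneous coordinates are constants -/
def IsConst (Ω : Type) {M : Type} [Field Ω] [Field M] [Algebra Ω M] {n : ℕ}
    (y : Fin (n + 1) → M) : Prop :=
  ∀ i j, ∃ c : Ω, y i / y j = algebraMap Ω M c

section

variable {K : Type} [Field K] {n r : ℕ}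

/-- on the projective variety, outside of the closed subset -/
def OnOff (G : Set (MvPolynomial (Fin (n + 1)) K)) (H : Fin r → MvPolynomial (Fin (n + 1)) K)
    {M : Type} [Field M] (ψ : K →+* M) (y : Fin (n + 1) → M) : Prop :=
  (∀ g ∈ G, g.eval₂ ψ y = 0) ∧ ∃ l, (H l).eval₂ ψ y ≠ 0

/-- the points of degree at most `d` over the field of rational functions over `Ω` are constant -/
def NoPts (d : ℕ) (G : Set (MvPolynomial (Fin (n + 1)) K))
    (H : Fin r → MvPolynomial (Fin (n + 1)) K) (Ω : Type) [Field Ω] (ψ : K →+* Ω) : Prop :=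
  ∀ (M : Type) [Field M] [Algebra Ω M] (t : M) (y : Fin (n + 1) → M), Transcendental Ω t → y ≠ 0 →
    OnOff G H ((algebraMap Ω M).comp ψ) y → DegLE Ω⟮t⟯ d y → IsConst Ω y

/-- over all algebraically closed fields -/
def NoPtsAll (d : ℕ) (G : Set (MvPolynomial (Fin (n + 1)) K))
    (H : Fin r → MvPolynomial (Fin (n + 1)) K) : Prop :=
  ∀ (Ω : Type) [Field Ω] [IsAlgClosed Ω] (ψ : K →+* Ω), NoPts d G H Ω ψ

/-- sparse points of degree at most `d` -/
def SparsePt {L : Type} [Field L] [NumberField L] (φ : L →+* Qbar)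
    (S : Set (HeightOneSpectrum (𝓞 L))) (N : ℕ) (T : ℝ) (d : ℕ) (x : Fin (n + 1) → Qbar) : Prop :=
  ∃ (θ : Qbar) (f : Polynomial L) (A : Fin (n + 1) → Polynomial L), f ≠ 0 ∧ f.natDegree ≤ d ∧
    f.eval₂ φ θ = 0 ∧ (∀ j, Sparse S N T (f.coeff j)) ∧
    ∀ i, (A i).natDegree ≤ N ∧ (∀ j, Sparse S N T ((A i).coeff j)) ∧ x i = (A i).eval₂ φ θ

/-- heights -/
def HtBound (d : ℕ) (G : Set (MvPolynomial (Fin (n + 1)) K))
    (H : Fin r → MvPolynomial (Fin (n + 1)) K) : Prop :=
  ∀ (L : Type) [Field L] [NumberField L] [Algebra K L] (φ : L →+* Qbar)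
    (S : Set (HeightOneSpectrum (𝓞 L))), S.Finite → ∀ N : ℕ, ∃ C : ℝ, ∀ T : ℝ, 0 ≤ T →
      ∀ x : Fin (n + 1) → Qbar, x ≠ 0 → SparsePt φ S N T d x →
        OnOff G H (φ.comp (algebraMap K L)) x → absLogHeight x ≤ C * (1 + T)

/-- the set of the sparse points -/
def pts (d : ℕ) (G : Set (MvPolynomial (Fin (n + 1)) K))
    (H : Fin r → MvPolynomial (Fin (n + 1)) K) (L : Type) [Field L] [NumberField L] [Algebra K L]
    (φ : L →+* Qbar) (S : Set (HeightOneSpectrum (𝓞 L))) (N : ℕ) (T : ℝ) :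
    Set (ℙ Qbar (Fin (n + 1) → Qbar)) :=
  {P | ∃ (x : Fin (n + 1) → Qbar) (hx : x ≠ 0), P = Projectivization.mk Qbar x hx ∧
    SparsePt φ S N T d x ∧ OnOff G H (φ.comp (algebraMap K L)) x}

/-- finiteness -/
def FinAll (d : ℕ) (G : Set (MvPolynomial (Fin (n + 1)) K))
    (H : Fin r → MvPolynomial (Fin (n + 1)) K) : Prop :=
  ∀ (L : Type) [Field L] [NumberField L] [Algebra K L] (φ : L →+* Qbar)
    (S : Set (HeightOneSpectrum (𝓞 L))), S.Finite → ∀ (N : ℕ) (T : ℝ), (pts d G H L φ S N T).Finite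

/-- finiteness of the points given by sums of few units -/
def FinUnits (d : ℕ) (G : Set (MvPolynomial (Fin (n + 1)) K))
    (H : Fin r → MvPolynomial (Fin (n + 1)) K) : Prop :=
  ∀ (L : Type) [Field L] [NumberField L] [Algebra K L] (φ : L →+* Qbar)
    (S : Set (HeightOneSpectrum (𝓞 L))), S.Finite → ∀ N : ℕ, (pts d G H L φ S N 0).Finite

end

end Pool.Agent.D0H85.BD
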