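import Pool.Agent.D0H85.BD.Dat

/-!
Algebraic elements over a field of rational functions.
-/

set_option autoImplicit false
set_option linter.unusedSectionVars false

namespace Pool.Agent.D0H85.BD

open scoped IntermediateField
open Polynomial (C X)

section

variable {Ω M : Type} [Field Ω] [Field M] [Algebra Ω M] {t : M}

theorem aeval_ne (ht : Transcendental Ω t) {b : Polynomial Ω} (hb : b ≠ 0) :
    Polynomial.aeval t b ≠ 0 := fun h => ht ⟨b, hb, h⟩

/-- clearing denominators -/
theorem clear (ht : Transcendental Ω t) (c : ℕ → M) (N : ℕ) (hc : ∀ m < N, c m ∈ Ω⟮t⟯) :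
    ∃ b : Polynomial Ω, b ≠ 0 ∧ ∃ a : ℕ → Polynomial Ω, ∀ m < N,
      c m * Polynomial.aeval t b = Polynomial.aeval t (a m) := by
  suffices h : ∃ b : Polynomial Ω, b ≠ 0 ∧ ∀ m, ∃ a : Polynomial Ω, m < N →
      c m * Polynomial.aeval t b = Polynomial.aeval t a by
    obtain ⟨b, hb, h⟩ := h
    choose a ha using h
    exact ⟨b, hb, a, ha⟩
  induction N with
  | zero => exact ⟨1, one_ne_zero, fun m => ⟨0, fun hm => absurd hm (Nat.not_lt_zero m)⟩⟩
  | succ N ih =>
    obtain ⟨b, hb, h⟩ := ih fun m hm => hc m (by omega)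
    obtain ⟨r, s, hrs⟩ := (IntermediateField.mem_adjoin_simple_iff Ω _).1 (hc N (by omega))
    by_cases hs : s = 0
    · refine ⟨b, hb, fun m => ?_⟩
      by_cases hm : m = N
      · refine ⟨0, fun _ => ?_⟩
        rw [hm, hrs, hs, map_zero, div_zero, zero_mul]
      · obtain ⟨a, ha⟩ := h m
        exact ⟨a, fun h2 => ha (by omega)⟩
    · refine ⟨b * s, mul_ne_zero hb hs, fun m => ?_⟩
      by_cases hm : m = N
      · refine ⟨b * r, fun _ => ?_⟩
        have hs' := aeval_ne ht hs
        rw [hm, hrs, map_mul, map_mul]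
        field_simp
      · obtain ⟨a, ha⟩ := h m
        refine ⟨a * s, fun h2 => ?_⟩
        rw [map_mul, map_mul, ← ha (by omega)]
        ring

/-- clearing denominators in a polynomial -/
theorem clear_poly (ht : Transcendental Ω t) (p : Polynomial Ω⟮t⟯) :
    ∃ b : Polynomial Ω, b ≠ 0 ∧ ∃ q : Polynomial (Polynomial Ω), q.natDegree ≤ p.natDegree ∧
      (p ≠ 0 → q ≠ 0) ∧ ∀ θ : M, ev2 (algebraMap Ω M) t θ q =
        Polynomial.aeval t b * Polynomial.aeval θ p := by
  classical
  obtain ⟨b, hb, a, ha⟩ := clear ht (fun m => ((p.coeff m : Ω⟮t⟯) : M)) (p.natDegree + 1)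
    (fun m _ => (p.coeff m).2)
  let q : Polynomial (Polynomial Ω) := ∑ m ∈ Finset.range (p.natDegree + 1),
    Polynomial.monomial m (a m)
  refine ⟨b, hb, q, ?_, ?_, ?_⟩
  · refine Polynomial.natDegree_sum_le_of_forall_le _ _ fun m hm => ?_
    refine (Polynomial.natDegree_monomial_le _).trans ?_
    have := Finset.mem_range.1 hm
    omega
  · intro hp hq
    have h1 : q.coeff p.natDegree = a p.natDegree := by
      show (∑ m ∈ Finset.range (p.natDegree + 1), Polynomial.monomial m (a m)).coeff _ = _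
      rw [Polynomial.finset_sum_coeff]
      simp only [Polynomial.coeff_monomial]
      rw [Finset.sum_ite_eq' (Finset.range (p.natDegree + 1)) p.natDegree a,
        if_pos (Finset.self_mem_range_succ _)]
    rw [hq, Polynomial.coeff_zero] at h1
    have h2 := ha p.natDegree (by omega)
    rw [← h1, map_zero] at h2
    rcases mul_eq_zero.1 h2 with h3 | h3
    · apply hp
      rw [← Polynomial.leadingCoeff_eq_zero]
      exact Subtype.ext h3
    · exact aeval_ne ht hb h3
  · intro θ
    show ev2 (algebraMap Ω M) t θ (∑ m ∈ Finset.range (p.natDegree + 1),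
      Polynomial.monomial m (a m)) = _
    have h0 : Polynomial.aeval θ p = ∑ i ∈ Finset.range (p.natDegree + 1), p.coeff i • θ ^ i :=
      Polynomial.aeval_eq_sum_range θ
    rw [map_sum, h0, Finset.mul_sum]
    refine Finset.sum_congr rfl fun m hm => ?_
    unfold ev2
    rw [Polynomial.coe_eval₂RingHom, Polynomial.eval₂_monomial, Polynomial.coe_eval₂RingHom,
      ← Polynomial.aeval_def, ← ha m (Finset.mem_range.1 hm), Algebra.smul_def]
    show _ * _ * _ = _ * (((p.coeff m : Ω⟮t⟯) : M) * _)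
    ring

theorem ev2_swap {M : Type} [Field M] (ρ : Ω →+* M) (x y : M) (p : Polynomial (Polynomial Ω)) :
    ev2 ρ x y (Polynomial.Bivariate.swap p) = ev2 ρ y x p := by
  have h : (ev2 ρ x y).comp ((Polynomial.Bivariate.swap (R := Ω)).toAlgHom : _ →+* _) =
      ev2 ρ y x := by
    refine Polynomial.ringHom_ext' (Polynomial.ringHom_ext' ?_ ?_) ?_
    · refine RingHom.ext fun z => ?_
      show ev2 ρ x y (Polynomial.Bivariate.swap (C (C z))) = ev2 ρ y x (C (C z))
      rw [Polynomial.Bivariate.swap_C_C, ev2_C, ev2_C, Polynomial.eval₂_C, Polynomial.eval₂_C]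
    · show ev2 ρ x y (Polynomial.Bivariate.swap (C X)) = ev2 ρ y x (C X)
      rw [Polynomial.Bivariate.swap_X, ev2_X]
      unfold ev2
      rw [Polynomial.coe_eval₂RingHom, Polynomial.eval₂_X]
    · show ev2 ρ x y (Polynomial.Bivariate.swap X) = ev2 ρ y x X
      rw [Polynomial.Bivariate.swap_Y, ev2_X]
      unfold ev2
      rw [Polynomial.coe_eval₂RingHom, Polynomial.eval₂_X]
  exact congrArg (fun g => g p) h

theorem HH_field {M : Type} [Field M] (ρ : Ω →+* M) (D : ℕ) (P : Polynomial (Polynomial Ω))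
    (x w v : M) (hv : v ≠ 0) (hP : ∀ m, (P.coeff m).natDegree ≤ D) :
    HH ρ D P x w v = v ^ D * ev2 ρ (w / v) x P := by
  unfold HH
  have h8 : ∀ m ∈ Finset.range (P.natDegree + 1), Hm ρ D (P.coeff m) w v * x ^ m =
      v ^ D * ((P.coeff m).eval₂ ρ (w / v) * x ^ m) := by
    intro m _
    rw [Hm_field ρ D _ _ _ hv (hP _), mul_assoc]
  rw [Finset.sum_congr rfl h8, ← Finset.mul_sum]
  congr 1
  unfold ev2
  rw [Polynomial.coe_eval₂RingHom, Polynomial.eval₂_eq_sum_range]
  rfl

/-- algebraic elements are constants -/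
theorem mem_const [IsAlgClosed Ω] {z : M} (hz : IsAlgebraic Ω z) : ∃ c : Ω, z = algebraMap Ω M c := by
  have h1 : IsIntegral Ω z := hz.isIntegral
  have h2 := IsAlgClosed.degree_eq_one_of_irreducible Ω (minpoly.irreducible h1)
  obtain ⟨c, hc⟩ := minpoly.mem_range_of_degree_eq_one Ω z h2
  exact ⟨c, hc.symm⟩

end

end Pool.Agent.D0H85.BD
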