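import Pool.Agent.D0H85.BD.Ext0

/-!
A generator which is integral over the polynomials.
-/

set_option autoImplicit false
set_option linter.unusedSectionVars false

namespace Pool.Agent.D0H85.BD

open scoped IntermediateField
open Polynomial (C X)

section

variable {Ω M : Type} [Field Ω] [Field M] [Algebra Ω M] {t : M}

theorem alg_rel (ht : Transcendental Ω t) {x : M} (hx : IsIntegral Ω⟮t⟯ x) :
    ∃ Q : Polynomial (Polynomial Ω), Q ≠ 0 ∧ ev2 (algebraMap Ω M) t x Q = 0 := by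
  obtain ⟨b, -, q, -, h1, h2⟩ := clear_poly ht (minpoly Ω⟮t⟯ x)
  refine ⟨q, h1 (minpoly.ne_zero hx), ?_⟩
  rw [h2, minpoly.aeval, mul_zero]

theorem exists_theta [CharZero Ω] (ht : Transcendental Ω t) {d : ℕ}
    (E : IntermediateField Ω⟮t⟯ M) (hE : Module.rank Ω⟮t⟯ E ≤ (d : Cardinal)) :
    ∃ (θ : M) (f : Polynomial (Polynomial Ω)), f.Monic ∧ 0 < f.natDegree ∧ f.natDegree ≤ d ∧
      ev2 (algebraMap Ω M) t θ f = 0 ∧
      (∀ p, ev2 (algebraMap Ω M) t θ p = 0 → f ∣ p) ∧
      (∀ x ∈ E, ∃ b : Polynomial Ω, b ≠ 0 ∧ ∃ p, Polynomial.aeval t b * x =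
        ev2 (algebraMap Ω M) t θ p) ∧
      ∀ p, ev2 (algebraMap Ω M) t θ p ≠ 0 → ∃ c : Polynomial Ω, c ≠ 0 ∧
        ∃ W, ev2 (algebraMap Ω M) t θ (C c - W * p) = 0 := by
  classical
  have hfin : FiniteDimensional Ω⟮t⟯ E :=
    Module.rank_lt_aleph0_iff.1 (hE.trans_lt (Cardinal.natCast_lt_aleph0))
  have hfr : Module.finrank Ω⟮t⟯ E ≤ d := by
    rw [← Module.finrank_eq_rank] at hE
    exact_mod_cast hE
  have hchar : CharZero Ω⟮t⟯ := charZero_of_injective_algebraMap (algebraMap Ω Ω⟮t⟯).injective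
  obtain ⟨α, hα⟩ := Field.exists_primitive_element Ω⟮t⟯ E
  have hgen : ∀ x ∈ E, x ∈ (Ω⟮t⟯)⟮(α : M)⟯ := by
    intro x hx
    have h1 : (⟨x, hx⟩ : E) ∈ (Ω⟮t⟯)⟮α⟯ := by
      rw [hα]
      exact IntermediateField.mem_top
    obtain ⟨r, s, hrs⟩ := (IntermediateField.mem_adjoin_simple_iff Ω⟮t⟯ _).1 h1
    rw [IntermediateField.mem_adjoin_simple_iff]
    refine ⟨r, s, ?_⟩
    have h2 := congrArg (E.val) hrs
    rw [map_div₀, ← Polynomial.aeval_algHom_apply, ← Polynomial.aeval_algHom_apply] at h2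
    exact h2
  have hαi : IsIntegral Ω⟮t⟯ (α : M) :=
    (Algebra.IsIntegral.isIntegral (R := Ω⟮t⟯) α).map E.val
  -- the polynomials act through `t`
  let R := Polynomial Ω
  let _ : Algebra R M := (Polynomial.eval₂RingHom (algebraMap Ω M) t).toAlgebra
  have hev : ∀ (x : M) (p : Polynomial R), Polynomial.aeval x p =
      ev2 (algebraMap Ω M) t x p := fun x p => rfl
  have hmap : ∀ b : R, algebraMap R M b = Polynomial.aeval t b := fun b => rfl
  have hinj : Function.Injective (algebraMap R M) := by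
    rw [injective_iff_map_eq_zero]
    intro b hb
    by_contra h0
    exact aeval_ne ht h0 hb
  have htf : Module.IsTorsionFree R M := Module.isTorsionFree_iff_algebraMap_injective.2 hinj
  have halg : IsAlgebraic R (α : M) := by
    obtain ⟨Q, hQ, hQ0⟩ := alg_rel ht hαi
    exact ⟨Q, hQ, hQ0⟩
  obtain ⟨b, hb, hint⟩ := halg.exists_integral_multiple
  set θ : M := b • (α : M) with hθ
  have hθ' : θ = Polynomial.aeval t b * (α : M) := by
    rw [hθ, Algebra.smul_def]
    rfl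
  have hb' : Polynomial.aeval t b ≠ 0 := aeval_ne ht hb
  have hbF : ∀ b : Polynomial Ω, Polynomial.aeval t b ∈ Ω⟮t⟯ := by
    intro b
    exact IntermediateField.algebra_adjoin_le_adjoin Ω {t}
      (Polynomial.aeval_mem_adjoin_singleton Ω t)
  have hθE : θ ∈ E := by
    rw [hθ']
    exact E.mul_mem (E.algebraMap_mem ⟨_, hbF b⟩) α.2
  have hEθ : ∀ x ∈ E, x ∈ (Ω⟮t⟯)⟮θ⟯ := by
    intro x hx
    have h1 : (Ω⟮t⟯)⟮(α : M)⟯ ≤ (Ω⟮t⟯)⟮θ⟯ := by
      rw [IntermediateField.adjoin_simple_le_iff]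
      have h2 : (α : M) = θ / Polynomial.aeval t b := by
        rw [hθ']
        field_simp
      rw [h2]
      exact div_mem (IntermediateField.mem_adjoin_simple_self _ _)
        ((Ω⟮t⟯)⟮θ⟯.algebraMap_mem (⟨_, hbF b⟩ : Ω⟮t⟯))
    exact h1 (hgen x hx)
  have hθi : IsIntegral Ω⟮t⟯ θ := by
    have h1 : IsIntegral Ω⟮t⟯ (⟨θ, hθE⟩ : E) := Algebra.IsIntegral.isIntegral _
    exact h1.map E.val
  have hdvd : ∀ p, ev2 (algebraMap Ω M) t θ p = 0 → minpoly R θ ∣ p := fun p hp =>
    minpoly.isIntegrallyClosed_dvd hint hp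
  refine ⟨θ, minpoly R θ, minpoly.monic hint, minpoly.natDegree_pos hint, ?_,
    minpoly.aeval R θ, hdvd, ?_, ?_⟩
  · obtain ⟨b', hb', q, hq1, hq2, hq3⟩ := clear_poly ht (minpoly Ω⟮t⟯ θ)
    have h1 : minpoly R θ ∣ q := hdvd q (by rw [hq3, minpoly.aeval, mul_zero])
    have h2 := Polynomial.natDegree_le_of_dvd h1 (hq2 (minpoly.ne_zero hθi))
    have h3 : Module.finrank Ω⟮t⟯ (Ω⟮t⟯)⟮θ⟯ = (minpoly Ω⟮t⟯ θ).natDegree :=
      IntermediateField.adjoin.finrank hθi
    have h4 : (Ω⟮t⟯)⟮θ⟯ ≤ E := by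
      rw [IntermediateField.adjoin_simple_le_iff]
      exact hθE
    have h5 : Module.finrank Ω⟮t⟯ (Ω⟮t⟯)⟮θ⟯ ≤ Module.finrank Ω⟮t⟯ E :=
      LinearMap.finrank_le_finrank_of_injective
        (f := (IntermediateField.inclusion h4).toLinearMap)
        (IntermediateField.inclusion h4).injective
    omega
  · intro x hx
    have h1 := hEθ x hx
    have h2 : x ∈ Algebra.adjoin Ω⟮t⟯ {θ} := by
      rw [← IntermediateField.adjoin_simple_toSubalgebra_of_isAlgebraic hθi.isAlgebraic]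
      exact h1
    rw [Algebra.adjoin_singleton_eq_range_aeval] at h2
    obtain ⟨p, hp⟩ := h2
    obtain ⟨b', hb', q, -, -, hq3⟩ := clear_poly ht p
    refine ⟨b', hb', q, ?_⟩
    rw [hq3]
    congr 1
    exact hp.symm
  · intro p hp
    set π : M := ev2 (algebraMap Ω M) t θ p with hπ
    have hπi : IsIntegral R π := by
      have h1 : π ∈ Algebra.adjoin R {θ} := Polynomial.aeval_mem_adjoin_singleton R θ (p := p)
      exact IsIntegral.of_mem_of_fg _ hint.fg_adjoin_singleton _ h1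
    set g := minpoly R π with hg
    have hg1 : Polynomial.aeval π g = 0 := minpoly.aeval R π
    have hsplit := Polynomial.divX_mul_X_add g
    have hg2 : Polynomial.aeval π g.divX * π + algebraMap R M (g.coeff 0) = 0 := by
      rw [← hsplit, map_add, map_mul, Polynomial.aeval_X, Polynomial.aeval_C] at hg1
      exact hg1
    refine ⟨g.coeff 0, ?_, - (g.divX).eval₂ C p, ?_⟩
    · intro h0
      rw [h0, map_zero, add_zero] at hg2
      have h1 := (mul_eq_zero.1 hg2).resolve_right hp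
      have h2 : g.divX ≠ 0 := by
        intro h3
        rw [h3, h0, zero_mul, map_zero, zero_add] at hsplit
        exact minpoly.ne_zero hπi hsplit.symm
      have h3 := minpoly.isIntegrallyClosed_dvd hπi h1
      have h4 := Polynomial.natDegree_le_of_dvd h3 h2
      rw [Polynomial.natDegree_divX_eq_natDegree_tsub_one] at h4
      have h5 := minpoly.natDegree_pos hπi
      rw [← hg] at h4 h5
      omega
    · have h6 : ev2 (algebraMap Ω M) t θ ((g.divX).eval₂ C p) = Polynomial.aeval π g.divX := by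
        have h8 : (ev2 (algebraMap Ω M) t θ).comp C = algebraMap R M :=
          RingHom.ext fun z => ev2_C _ _ _ _
        rw [Polynomial.hom_eval₂, h8, Polynomial.aeval_def]
      have h7 : ev2 (algebraMap Ω M) t θ (C (g.coeff 0)) = algebraMap R M (g.coeff 0) := ev2_C _ _ _ _
      rw [map_sub, map_mul, map_neg, h6, h7, ← hπ, ← hg2]
      ring

end

end Pool.Agent.D0H85.BD
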