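import Pool.Agent.D0H85.BD.Ext1

/-!
A nonconstant point of bounded degree gives the data.
-/

set_option autoImplicit false
set_option linter.unusedSectionVars false

namespace Pool.Agent.D0H85.BD

open scoped IntermediateField
open Polynomial (C X)

theorem extract {K : Type} [Field K] {n r d : ℕ} {G : Set (MvPolynomial (Fin (n + 1)) K)}
    {H : Fin r → MvPolynomial (Fin (n + 1)) K} (hG : ∀ g ∈ G, ∃ e, g.IsHomogeneous e)
    (hH : ∀ l, ∃ e, (H l).IsHomogeneous e) {Ω M : Type} [Field Ω] [IsAlgClosed Ω] [CharZero Ω]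
    [Field M] [Algebra Ω M] (ψ : K →+* Ω) {t : M} (ht : Transcendental Ω t)
    (y : Fin (n + 1) → M) (hy : OnOff G H ((algebraMap Ω M).comp ψ) y)
    (hd : DegLE Ω⟮t⟯ d y) (hne : ¬ IsConst Ω y) :
    ∃ (f : Polynomial (Polynomial Ω)) (A : Fin (n + 1) → Polynomial (Polynomial Ω))
      (i j : Fin (n + 1)) (l : Fin r) (P : Polynomial (Polynomial Ω)) (D : ℕ)
      (U W : Polynomial (Polynomial Ω)) (c : Polynomial Ω), Dat d G H ψ f A i j l P D U W c := by
  classical
  unfold IsConst at hne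
  push Not at hne
  obtain ⟨i, j, hij⟩ := hne
  have hyj : y j ≠ 0 := by
    intro h0
    apply hij 0
    rw [h0, div_zero, map_zero]
  set E := IntermediateField.adjoin Ω⟮t⟯ {z : M | ∃ i j, z = y i / y j} with hE
  have hrat : ∀ a b, y a / y b ∈ E := fun a b =>
    IntermediateField.subset_adjoin Ω⟮t⟯ _ ⟨a, b, rfl⟩
  obtain ⟨θ, f, hmon, hpos, hdeg, hroot, hdvd, hrep, hnorm⟩ := exists_theta ht E hd
  have hf1 : f ≠ 1 := by
    rintro rfl
    rw [Polynomial.natDegree_one] at hpos
    exact lt_irrefl _ hpos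
  set ev := ev2 (algebraMap Ω M) t θ with hev
  -- the coordinates
  choose b hb p hp using fun a => hrep _ (hrat a j)
  let lam : Polynomial Ω := ∏ a, b a
  have hlam : lam ≠ 0 := Finset.prod_ne_zero_iff.2 fun a _ => hb a
  let q : Fin (n + 1) → Polynomial (Polynomial Ω) := fun a =>
    C (∏ e ∈ Finset.univ.erase a, b e) * p a
  let A : Fin (n + 1) → Polynomial (Polynomial Ω) := fun a => q a %ₘ f
  set μ : M := Polynomial.aeval t lam / y j with hμ
  have hμ0 : μ ≠ 0 := div_ne_zero (aeval_ne ht hlam) hyj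
  have hA : ∀ a, ev (A a) = μ * y a := by
    intro a
    have h1 : ev (A a) = ev (q a) := by
      show ev (q a %ₘ f) = ev (q a)
      conv_rhs => rw [← Polynomial.modByMonic_add_div (q a) f]
      rw [map_add, map_mul, hroot, zero_mul, add_zero]
    rw [h1]
    show ev (C (∏ e ∈ Finset.univ.erase a, b e) * p a) = _
    rw [map_mul, ← hp, hev, ev2_C, ← Polynomial.aeval_def, ← mul_assoc, ← map_mul,
      Finset.prod_erase_mul _ _ (Finset.mem_univ a), hμ]
    show Polynomial.aeval t lam * _ = _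
    field_simp
  -- the relation
  set z : M := y i / y j with hz
  have hfin : FiniteDimensional Ω⟮t⟯ E :=
    Module.rank_lt_aleph0_iff.1 (lt_of_le_of_lt hd (Cardinal.natCast_lt_aleph0))
  have hzint : IsIntegral Ω⟮t⟯ z := by
    have h1 : IsIntegral Ω⟮t⟯ (⟨z, hrat i j⟩ : E) := Algebra.IsIntegral.isIntegral _
    exact h1.map E.val
  obtain ⟨Q, hQ, hQ0⟩ := alg_rel ht hzint
  set P := Polynomial.Bivariate.swap Q with hP
  have hP0 : P ≠ 0 := by
    rw [hP]
    intro h0
    exact hQ ((map_eq_zero_iff _ (Polynomial.Bivariate.swap (R := Ω)).injective).1 h0)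
  have hPz : ev2 (algebraMap Ω M) z t P = 0 := by rw [hP, ev2_swap, hQ0]
  have hztr : Transcendental Ω z := by
    intro halg
    obtain ⟨c, hc⟩ := mem_const halg
    exact hij c hc
  let D : ℕ := ∑ m ∈ Finset.range (P.natDegree + 1), (P.coeff m).natDegree
  have hD : ∀ m, (P.coeff m).natDegree ≤ D := by
    intro m
    by_cases hm : m < P.natDegree + 1
    · exact Finset.single_le_sum (f := fun m => (P.coeff m).natDegree) (fun _ _ => Nat.zero_le _)
        (Finset.mem_range.2 hm)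
    · rw [Polynomial.coeff_eq_zero_of_natDegree_lt (by omega), Polynomial.natDegree_zero]
      exact Nat.zero_le _
  have hAj : ev (A j) ≠ 0 := by
    rw [hA]
    exact mul_ne_zero hμ0 hyj
  have hratio : ev (A i) / ev (A j) = z := by
    rw [hA, hA, hz]
    field_simp
  -- the point outside
  obtain ⟨hy1, l, hl⟩ := hy
  have hscale : ∀ g : MvPolynomial (Fin (n + 1)) K, ∀ e, g.IsHomogeneous e →
      ev (g.eval₂ ((CC Ω).comp ψ) A) = μ ^ e * g.eval₂ ((algebraMap Ω M).comp ψ) y := by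
    intro g e hg
    rw [hev, ev2_form]
    have h1 : (fun a => ev2 (algebraMap Ω M) t θ (A a)) = fun a => μ * y a := by
      funext a
      exact hA a
    rw [h1, SP.eval₂_smul _ _ _ hg]
  obtain ⟨e, he⟩ := hH l
  have h1 : ev ((H l).eval₂ ((CC Ω).comp ψ) A * A j *
      Hm (CC Ω) D P.leadingCoeff (A i) (A j)) ≠ 0 := by
    rw [map_mul, map_mul, hscale _ e he, hev, map_Hm, ev2_CC,
      Hm_field _ _ _ _ _ hAj (show P.leadingCoeff.natDegree ≤ D from hD _)]
    refine mul_ne_zero (mul_ne_zero (mul_ne_zero (pow_ne_zero _ hμ0) hl) hAj)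
      (mul_ne_zero (pow_ne_zero _ hAj) ?_)
    rw [← hev, hratio, ← Polynomial.aeval_def]
    exact aeval_ne hztr (Polynomial.leadingCoeff_ne_zero.2 hP0)
  obtain ⟨c, hc, W, hW⟩ := hnorm _ h1
  obtain ⟨U, hU⟩ := hdvd _ hW
  refine ⟨f, A, i, j, l, P, D, U, W, c, hmon, hpos, hdeg, ?_, ?_, ?_, hD, ?_, hc⟩
  · intro a
    exact (Polynomial.natDegree_modByMonic_lt _ hmon hf1).trans_le hdeg
  · intro g hg
    obtain ⟨e, he⟩ := hG g hg
    apply hdvd
    rw [hscale g e he, hy1 g hg, mul_zero]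
  · apply hdvd
    rw [map_HH, ev2_CC, ev2_X, HH_field _ _ _ _ _ _ hAj hD, hratio, hPz, mul_zero]
  · rw [mul_comm U f, ← hU]
    ring

end Pool.Agent.D0H85.BD
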