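import Pool.Agent.D0H85.BD.Defs

/-!
Germs of algebraic numbers over germs of elements of a number field.
-/

set_option autoImplicit false
set_option linter.unusedSectionVars false

namespace Pool.Agent.D0H85.BD

open NumberField IsDedekindDomain Height Filter Topology
open scoped IntermediateField
open Pool.Agent.K1H83.VN
open Pool.Agent.D0H85.SP
open Pool.Agent.Helper259.AbsHt (Qbar absLogHeight absLogHeight_eq absLogHeight_root
  absLogHeight_le_sum absLogHeight_smul absLogHeight_nonneg)
open Pool.Agent.Helper259.HtPoly (cv)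

section lift

variable {k B : Type} [Field k] [Field B] {σ : Sc} (φ : k →+* B)

/-- the map of the germs -/
noncomputable def li (σ : Sc) : G k σ →+* G B σ where
  toFun g := gm σ fun t => φ (rep g t)
  map_one' := by
    have h1 : (1 : G B σ) = gm σ (fun _ => 1) := (map_one (gm σ)).symm
    rw [h1, gm_eq]
    filter_upwards [rep_one (k := k) (σ := σ)] with t ht
    rw [ht, map_one]
  map_mul' x y := by
    rw [← map_mul, gm_eq]
    filter_upwards [rep_mul x y] with t ht
    rw [ht, map_mul]
    rfl
  map_zero' := by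
    have h1 : (0 : G B σ) = gm σ (fun _ => 0) := (map_zero (gm σ)).symm
    rw [h1, gm_eq]
    filter_upwards [rep_zero (k := k) (σ := σ)] with t ht
    rw [ht, map_zero]
  map_add' x y := by
    rw [← map_add, gm_eq]
    filter_upwards [rep_add x y] with t ht
    rw [ht, map_add]
    rfl

theorem li_gm (f : ℕ → k) : li φ σ (gm σ f) = gm σ fun t => φ (f t) := by
  show gm σ (fun t => φ (rep (gm σ f) t)) = _
  rw [gm_eq]
  filter_upwards [rep_gm (σ := σ) f] with t ht
  rw [ht]

theorem li_apply (g : G k σ) : li φ σ g = gm σ fun t => φ (rep g t) := rfl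

end lift

variable {k : Type} [Field k] [NumberField k] {σ : Sc}

/-- the height of a vector of elements of a number field -/
theorem abs_le (φ : k →+* Qbar) {ι : Type} [Fintype ι] (y : ι → k) :
    absLogHeight (fun i => φ (y i)) ≤ ∑ i, logHeight₁ (y i) := by
  rw [absLogHeight_eq k φ y]
  have h1 : (1 : ℝ) ≤ Module.finrank ℚ k := by
    exact_mod_cast (Module.finrank_pos : 0 < Module.finrank ℚ k)
  have h2 : logHeight y ≤ ∑ i, logHeight₁ (y i) := logHeight_le_sum y
  refine (div_le_self ?_ h1).trans h2
  exact logHeight_nonneg _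

/-- germs of algebraic numbers which are algebraic over the small germs are small -/
theorem small_alg (φ : k →+* Qbar) (z : ℕ → Qbar) (p : Polynomial (FF k σ)) (hp : p ≠ 0)
    (h : p.eval₂ ((li φ σ).comp (FF k σ).subtype) (gm σ z) = 0) :
    Sm σ fun t => absLogHeight ![1, z t] := by
  classical
  obtain ⟨C, hC⟩ := absLogHeight_root p.natDegree
  let P : ℕ → Polynomial Qbar := fun t =>
    ∑ j ∈ Finset.range (p.natDegree + 1), Polynomial.C (φ (rep ((p.coeff j : FF k σ) : G k σ) t)) *
      Polynomial.X ^ j
  have hPc : ∀ t j, j ≤ p.natDegree → (P t).coeff j = φ (rep ((p.coeff j : FF k σ) : G k σ) t) := by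
    intro t j hj
    show Polynomial.coeff (∑ j ∈ Finset.range (p.natDegree + 1), _) j = _
    rw [Polynomial.finsetSum_coeff]
    simp only [Polynomial.coeff_C_mul_X_pow]
    rw [Finset.sum_ite_eq (Finset.range (p.natDegree + 1)) j, if_pos (Finset.mem_range.2 (by omega))]
  have hPd : ∀ t, (P t).natDegree ≤ p.natDegree := by
    intro t
    refine Polynomial.natDegree_sum_le_of_forall_le _ _ fun j hj => ?_
    refine (Polynomial.natDegree_C_mul_X_pow_le _ _).trans ?_
    have := Finset.mem_range.1 hj
    omega
  have hPe : ∀ t, (P t).eval (z t) = ∑ j ∈ Finset.range (p.natDegree + 1),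
      φ (rep ((p.coeff j : FF k σ) : G k σ) t) * z t ^ j := by
    intro t
    show Polynomial.eval (z t) (∑ j ∈ Finset.range (p.natDegree + 1), _) = _
    rw [Polynomial.eval_finsetSum]
    refine Finset.sum_congr rfl fun j _ => ?_
    rw [Polynomial.eval_mul, Polynomial.eval_C, Polynomial.eval_pow, Polynomial.eval_X]
  have h1 : ∀ᶠ t in (σ.𝒰 : Filter ℕ), (P t).eval (z t) = 0 := by
    have h2 : gm σ (fun t => (P t).eval (z t)) = gm σ 0 := by
      rw [map_zero, ← h, Polynomial.eval₂_eq_sum_range]
      have h3 : (fun t => (P t).eval (z t)) = ∑ j ∈ Finset.range (p.natDegree + 1),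
          (fun t => φ (rep ((p.coeff j : FF k σ) : G k σ) t)) * z ^ j := by
        funext t
        rw [hPe, Finset.sum_apply]
        rfl
      rw [h3, map_sum]
      refine Finset.sum_congr rfl fun j _ => ?_
      rw [map_mul, map_pow]
      rfl
    exact (gm_eq _ _).1 h2
  have h2 : ∀ᶠ t in (σ.𝒰 : Filter ℕ), P t ≠ 0 := by
    have h3 : ((p.coeff p.natDegree : FF k σ) : G k σ) ≠ 0 := by
      intro h0
      exact hp (Polynomial.leadingCoeff_eq_zero.1 (Subtype.ext h0))
    filter_upwards [rep_ne _ h3] with t ht h0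
    apply ht
    have h4 := hPc t p.natDegree le_rfl
    rw [h0, Polynomial.coeff_zero] at h4
    exact (map_eq_zero φ).1 h4.symm
  have h3 : Sm σ fun t => C + ∑ j : Fin (p.natDegree + 1),
      logHeight₁ (rep ((p.coeff (j : ℕ) : FF k σ) : G k σ) t) :=
    (Sm.const C).add (Sm.sum _ fun j _ => (p.coeff (j : ℕ)).2)
  refine h3.mono ?_
  filter_upwards [h1, h2] with t e1 e2
  refine (hC (P t) (z t) e2 (hPd t) e1).trans ?_
  gcongr
  have h4 : cv p.natDegree (P t) = fun j : Fin (p.natDegree + 1) =>
      φ (rep ((p.coeff (j : ℕ) : FF k σ) : G k σ) t) := by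
    funext j
    exact hPc t j (by omega)
  rw [h4]
  exact abs_le φ _

end Pool.Agent.D0H85.BD
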