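import Pool.Agent.D0H85.BD.Extract

/-!
Specialisation of the data to a number field.
-/

set_option autoImplicit false
set_option linter.unusedSectionVars false

namespace Pool.Agent.D0H85.BD

open scoped IntermediateField
open Polynomial (C X)

/-- a ring homomorphism on the coefficients -/
noncomputable def TT {B B' : Type} [CommRing B] [CommRing B'] (τ : B →+* B') :
    Polynomial (Polynomial B) →+* Polynomial (Polynomial B') :=
  Polynomial.mapRingHom (Polynomial.mapRingHom τ)

section

variable {B B' : Type} [CommRing B] [CommRing B'] (τ : B →+* B')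

theorem TT_C (p : Polynomial B) : TT τ (C p) = C (p.map τ) := by
  unfold TT
  rw [Polynomial.coe_mapRingHom, Polynomial.map_C, Polynomial.coe_mapRingHom]

theorem TT_CC : (TT τ).comp (CC B) = (CC B').comp τ := by
  refine RingHom.ext fun z => ?_
  show TT τ (C (C z)) = C (C (τ z))
  rw [TT_C, Polynomial.map_C]

theorem TT_coeff (p : Polynomial (Polynomial B)) (m : ℕ) : (TT τ p).coeff m = (p.coeff m).map τ := by
  unfold TT
  rw [Polynomial.coe_mapRingHom, Polynomial.coeff_map, Polynomial.coe_mapRingHom]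

theorem TT_natDegree (p : Polynomial (Polynomial B)) : (TT τ p).natDegree ≤ p.natDegree :=
  Polynomial.natDegree_map_le

theorem TT_inj (hτ : Function.Injective τ) : Function.Injective (TT τ) :=
  Polynomial.map_injective _ (Polynomial.map_injective _ hτ)

theorem Hm_comp {B'' : Type} [CommRing B''] (ρ : B' →+* B'') (D : ℕ) (p : Polynomial B)
    (w v : B'') : Hm (ρ.comp τ) D p w v = Hm ρ D (p.map τ) w v := by
  unfold Hm
  refine Finset.sum_congr rfl fun m _ => ?_
  rw [Polynomial.coeff_map]
  rfl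

theorem HH_range {B'' : Type} [CommRing B''] (ρ : B →+* B'') (D : ℕ)
    (P : Polynomial (Polynomial B)) (x w v : B'') (N : ℕ) (hN : P.natDegree < N) :
    HH ρ D P x w v = ∑ j ∈ Finset.range N, Hm ρ D (P.coeff j) w v * x ^ j := by
  unfold HH
  refine Finset.sum_subset (Finset.range_subset_range.2 hN) fun j _ hj => ?_
  rw [Polynomial.coeff_eq_zero_of_natDegree_lt (by
    have := mt Finset.mem_range.2 hj
    omega)]
  unfold Hm
  simp

theorem HH_comp {B'' : Type} [CommRing B''] (ρ : B' →+* B'') (D : ℕ)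
    (P : Polynomial (Polynomial B)) (x w v : B'') :
    HH (ρ.comp τ) D P x w v = HH ρ D (TT τ P) x w v := by
  rw [HH_range _ _ _ _ _ _ (P.natDegree + 1) (by omega), HH_range _ _ _ _ _ _ (P.natDegree + 1)
    (by have := TT_natDegree τ P; omega)]
  refine Finset.sum_congr rfl fun j _ => ?_
  rw [Hm_comp, TT_coeff]

theorem TT_form {K : Type} [Field K] {n : ℕ} (κ : K →+* B) (g : MvPolynomial (Fin (n + 1)) K)
    (A : Fin (n + 1) → Polynomial (Polynomial B)) :
    TT τ (g.eval₂ ((CC B).comp κ) A) = g.eval₂ ((CC B').comp (τ.comp κ)) fun a => TT τ (A a) := by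
  rw [MvPolynomial.hom_eval₂, ← RingHom.comp_assoc, TT_CC, RingHom.comp_assoc]

theorem TT_Hm (D : ℕ) (p : Polynomial B) (w v : Polynomial (Polynomial B)) :
    TT τ (Hm (CC B) D p w v) = Hm (CC B') D (p.map τ) (TT τ w) (TT τ v) := by
  rw [map_Hm, TT_CC, Hm_comp]

theorem TT_HH (D : ℕ) (P : Polynomial (Polynomial B)) (w v : Polynomial (Polynomial B)) :
    TT τ (HH (CC B) D P (C X) w v) = HH (CC B') D (TT τ P) (C X) (TT τ w) (TT τ v) := by
  rw [map_HH, TT_CC, HH_comp, TT_C, Polynomial.map_X]

end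

/-- the data over a ring -/
theorem Dat.transfer {K : Type} [Field K] {n r d : ℕ} {G : Set (MvPolynomial (Fin (n + 1)) K)}
    {H : Fin r → MvPolynomial (Fin (n + 1)) K} {Ω : Type} [Field Ω] {ψ : K →+* Ω}
    {i j : Fin (n + 1)} {l : Fin r} {D : ℕ}
    {B L : Type} [CommRing B] [Field L] (ι : B →+* Ω) (hι : Function.Injective ι) (π : B →+* L)
    (κ : K →+* B) (hκ : ι.comp κ = ψ) (f : Polynomial (Polynomial B))
    (A : Fin (n + 1) → Polynomial (Polynomial B)) (P U W : Polynomial (Polynomial B))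
    (c : Polynomial B) (hc : c.map π ≠ 0)
    (h : Dat d G H ψ (TT ι f) (fun a => TT ι (A a)) i j l (TT ι P) D (TT ι U) (TT ι W)
      (c.map ι)) :
    Dat d G H (π.comp κ) (TT π f) (fun a => TT π (A a)) i j l (TT π P) D (TT π U) (TT π W)
      (c.map π) := by
  have hinj := TT_inj ι hι
  have hmon : f.Monic := Polynomial.monic_of_injective (Polynomial.map_injective _ hι) h.mon
  have hnd : ∀ {L' : Type} [Field L'] (τ : B →+* L'), (TT τ f).natDegree = f.natDegree := by
    intro L' _ τ
    exact hmon.natDegree_map _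
  have hdvd : ∀ p : Polynomial (Polynomial B), TT ι f ∣ TT ι p → TT π f ∣ TT π p := by
    intro p hp
    refine map_dvd (TT π) ?_
    rw [← Polynomial.modByMonic_eq_zero_iff_dvd hmon]
    apply hinj
    rw [map_zero]
    unfold TT
    rw [Polynomial.coe_mapRingHom, Polynomial.map_modByMonic _ hmon]
    exact (Polynomial.modByMonic_eq_zero_iff_dvd h.mon).2 hp
  have hbez : U * f + W * ((H l).eval₂ ((CC B).comp κ) A * A j *
      Hm (CC B) D P.leadingCoeff (A i) (A j)) = C c := by
    apply hinj
    have h1 := h.bez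
    have h2 : (TT ι P).leadingCoeff = (P.leadingCoeff).map ι :=
      Polynomial.leadingCoeff_map_of_injective (Polynomial.map_injective _ hι) P
    rw [h2] at h1
    rw [map_add, map_mul, map_mul, map_mul, map_mul, TT_Hm, TT_C, TT_form, hκ]
    exact h1
  have hbez' : TT π U * TT π f + TT π W * ((H l).eval₂ ((CC L).comp (π.comp κ))
      (fun a => TT π (A a)) * TT π (A j) *
      Hm (CC L) D ((P.leadingCoeff).map π) (TT π (A i)) (TT π (A j))) = C (c.map π) := by
    rw [← TT_Hm, ← TT_form, ← TT_C, ← hbez]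
    simp only [map_add, map_mul]
  have hlc : (P.leadingCoeff).map π ≠ 0 := by
    intro h0
    rw [h0] at hbez'
    have h1 : Hm (CC L) D (0 : Polynomial L) (TT π (A i)) (TT π (A j)) = 0 := by
      unfold Hm
      simp
    rw [h1, mul_zero, mul_zero, add_zero] at hbez'
    have h2 : TT π U ≠ 0 := by
      intro h3
      rw [h3, zero_mul] at hbez'
      exact hc (Polynomial.C_eq_zero.1 hbez'.symm)
    have h3 := congrArg Polynomial.natDegree hbez'
    have hm' : (TT π f).Monic := hmon.map _
    rw [Polynomial.natDegree_C, Polynomial.natDegree_mul h2 hm'.ne_zero] at h3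
    have h4 := h.pos
    rw [hnd] at h4
    rw [hnd] at h3
    omega
  refine ⟨hmon.map _, ?_, ?_, ?_, ?_, ?_, ?_, ?_, hc⟩
  · have h1 := h.pos
    rw [hnd] at h1 ⊢
    exact h1
  · have h1 := h.deg
    rw [hnd] at h1 ⊢
    exact h1
  · intro a
    have h1 := h.adeg a
    have h2 : (TT ι (A a)).natDegree = (A a).natDegree :=
      Polynomial.natDegree_map_eq_of_injective (Polynomial.map_injective _ hι) _
    have h3 := TT_natDegree π (A a)
    show (TT π (A a)).natDegree < d
    rw [h2] at h1
    omega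
  · intro g hg
    have h1 := hdvd (g.eval₂ ((CC B).comp κ) A) (by
      rw [TT_form, hκ]
      exact h.eqn g hg)
    rw [TT_form] at h1
    exact h1
  · have h1 := hdvd (HH (CC B) D P (C X) (A i) (A j)) (by
      rw [TT_HH]
      exact h.rel)
    rw [TT_HH] at h1
    exact h1
  · intro m
    rw [TT_coeff]
    refine Polynomial.natDegree_map_le.trans ?_
    have h1 := h.pdeg m
    rw [TT_coeff, Polynomial.natDegree_map_eq_of_injective hι] at h1
    exact h1
  · have h1 : (TT π P).leadingCoeff = (P.leadingCoeff).map π :=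
      Polynomial.leadingCoeff_map_of_leadingCoeff_ne_zero _ hlc
    rw [h1]
    exact hbez'

/-- **Specialisation.** -/
theorem Dat.specialise {K : Type} [Field K] [NumberField K] {n r d : ℕ}
    {G : Set (MvPolynomial (Fin (n + 1)) K)}
    {H : Fin r → MvPolynomial (Fin (n + 1)) K} {Ω : Type} [Field Ω] {ψ : K →+* Ω}
    {f : Polynomial (Polynomial Ω)} {A : Fin (n + 1) → Polynomial (Polynomial Ω)}
    {i j : Fin (n + 1)} {l : Fin r} {P : Polynomial (Polynomial Ω)} {D : ℕ}
    {U W : Polynomial (Polynomial Ω)} {c : Polynomial Ω}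
    (h : Dat d G H ψ f A i j l P D U W c) :
    ∃ (L : Type) (_ : Field L) (_ : NumberField L) (_ : Algebra K L)
      (f' : Polynomial (Polynomial L)) (A' : Fin (n + 1) → Polynomial (Polynomial L))
      (P' U' W' : Polynomial (Polynomial L)) (c' : Polynomial L),
      Dat d G H (algebraMap K L) f' A' i j l P' D U' W' c' := by
  classical
  let _ : Algebra K Ω := ψ.toAlgebra
  let cf : Polynomial (Polynomial Ω) → Finset Ω := fun p => p.coeffs.biUnion Polynomial.coeffs
  let T0 : Finset Ω := cf f ∪ (Finset.univ.biUnion fun a => cf (A a)) ∪ cf P ∪ cf U ∪ cf W ∪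
    c.coeffs ∪ {(c.leadingCoeff)⁻¹}
  let B : Subalgebra K Ω := Algebra.adjoin K (T0 : Set Ω)
  have hT : ∀ x ∈ T0, x ∈ B := fun x hx => Algebra.subset_adjoin hx
  have hfin : Algebra.FiniteType K B := (Subalgebra.fg_iff_finiteType B).1 ⟨T0, rfl⟩
  have hlift : ∀ p : Polynomial Ω, (∀ x ∈ p.coeffs, x ∈ B) →
      ∃ q : Polynomial B, q.map (B.val : B →+* Ω) = p := by
    intro p hp
    have h4 : p ∈ Polynomial.lifts (B.val : B →+* Ω) := by
      rw [Polynomial.lifts_iff_coeff_lifts]
      intro m
      refine ⟨⟨p.coeff m, ?_⟩, rfl⟩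
      by_cases h0 : p.coeff m = 0
      · rw [h0]
        exact B.zero_mem
      · exact hp _ (Polynomial.coeff_mem_coeffs h0)
    exact (Polynomial.mem_lifts _).1 h4
  have hlift2 : ∀ p : Polynomial (Polynomial Ω), (∀ x ∈ cf p, x ∈ B) →
      ∃ q : Polynomial (Polynomial B), TT (B.val : B →+* Ω) q = p := by
    intro p hp
    have h4 : p ∈ Polynomial.lifts (Polynomial.mapRingHom (B.val : B →+* Ω)) := by
      rw [Polynomial.lifts_iff_coeff_lifts]
      intro m
      by_cases h0 : p.coeff m = 0
      · rw [h0]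
        exact ⟨0, map_zero _⟩
      · obtain ⟨q, hq⟩ := hlift (p.coeff m) fun x hx => hp x
          (Finset.mem_biUnion.2 ⟨p.coeff m, Polynomial.coeff_mem_coeffs h0, hx⟩)
        exact ⟨q, hq⟩
    exact (Polynomial.mem_lifts _).1 h4
  have hsub : ∀ {T1 : Finset Ω}, T1 ⊆ T0 → ∀ x ∈ T1, x ∈ B := fun hs x hx => hT x (hs hx)
  obtain ⟨f', hf'⟩ := hlift2 f (hsub (by
    intro x hx
    simp only [T0, Finset.mem_union]
    tauto))
  have hA : ∀ a, ∃ q : Polynomial (Polynomial B), TT (B.val : B →+* Ω) q = A a := by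
    intro a
    refine hlift2 (A a) (hsub ?_)
    intro x hx
    have hx' : x ∈ Finset.univ.biUnion fun a => cf (A a) :=
      Finset.mem_biUnion.2 ⟨a, Finset.mem_univ _, hx⟩
    simp only [T0, Finset.mem_union]
    tauto
  choose A' hA' using hA
  obtain ⟨P', hP'⟩ := hlift2 P (hsub (by
    intro x hx
    simp only [T0, Finset.mem_union]
    tauto))
  obtain ⟨U', hU'⟩ := hlift2 U (hsub (by
    intro x hx
    simp only [T0, Finset.mem_union]
    tauto))
  obtain ⟨W', hW'⟩ := hlift2 W (hsub (by
    intro x hx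
    simp only [T0, Finset.mem_union]
    tauto))
  obtain ⟨c', hc'⟩ := hlift c (hsub (by
    intro x hx
    simp only [T0, Finset.mem_union]
    tauto))
  have hinv : (c.leadingCoeff)⁻¹ ∈ B := hT _ (Finset.mem_union_right _ (Finset.mem_singleton_self _))
  -- the residue field
  obtain ⟨𝔪, h𝔪⟩ := Ideal.exists_maximal B
  let _ : Field (B ⧸ 𝔪) := Ideal.Quotient.field 𝔪
  have hft : Algebra.FiniteType K (B ⧸ 𝔪) := inferInstance
  have hmf : Module.Finite K (B ⧸ 𝔪) := finite_of_finite_type_of_isJacobsonRing K (B ⧸ 𝔪)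
  have hnf : NumberField (B ⧸ 𝔪) := NumberField.of_module_finite K (B ⧸ 𝔪)
  let π : B →+* (B ⧸ 𝔪) := Ideal.Quotient.mk 𝔪
  have hval : Function.Injective (B.val : B →+* Ω) := Subtype.val_injective
  refine ⟨B ⧸ 𝔪, inferInstance, hnf, inferInstance, TT π f', fun a => TT π (A' a), TT π P',
    TT π U', TT π W', c'.map π, ?_⟩
  refine Dat.transfer (B.val : B →+* Ω) hval π (algebraMap K B) (ψ := ψ) rfl f' A' P' U' W' c' ?_ ?_
  · intro h0
    have h1 : (c'.leadingCoeff : Ω) = c.leadingCoeff := by
      rw [← hc']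
      exact (Polynomial.leadingCoeff_map_of_injective hval c').symm
    have h2 : c'.leadingCoeff * ⟨(c.leadingCoeff)⁻¹, hinv⟩ = 1 := by
      apply Subtype.ext
      show (c'.leadingCoeff : Ω) * (c.leadingCoeff)⁻¹ = 1
      rw [h1]
      exact mul_inv_cancel₀ (Polynomial.leadingCoeff_ne_zero.2 h.ne)
    have h3 := congrArg (fun p => p.coeff c'.natDegree) h0
    simp only [Polynomial.coeff_map, Polynomial.coeff_zero] at h3
    have h4 := congrArg π h2
    rw [map_mul] at h4
    have h5 : π c'.leadingCoeff = 0 := h3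
    rw [h5, zero_mul, map_one] at h4
    exact zero_ne_one h4
  · have hA'' : (fun a => TT (B.val : B →+* Ω) (A' a)) = A := funext hA'
    rw [hf', hP', hU', hW', hc', hA'']
    exact h

end Pool.Agent.D0H85.BD
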