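import Pool.Agent.D0H85.BD.Conv

/-!
The equivalence.
-/

set_option autoImplicit false

namespace Pool.Agent.D0H85.BD

theorem tfae {K : Type} [Field K] [NumberField K] {n r : ℕ} (d : ℕ)
    (G : Set (MvPolynomial (Fin (n + 1)) K)) (H : Fin r → MvPolynomial (Fin (n + 1)) K)
    (hG : ∀ g ∈ G, ∃ e, g.IsHomogeneous e) (hH : ∀ l, ∃ e, (H l).IsHomogeneous e) :
    List.TFAE [NoPtsAll d G H,
      NoPts d G H (AlgebraicClosure K) (algebraMap K (AlgebraicClosure K)),
      HtBound d G H, FinAll d G H, FinUnits d G H] := by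
  have hspec : ∀ (Q : Prop), (∀ (L : Type) [Field L] [NumberField L] [Algebra K L]
      (f : Polynomial (Polynomial L)) (A : Fin (n + 1) → Polynomial (Polynomial L))
      (i j : Fin (n + 1)) (l : Fin r) (P : Polynomial (Polynomial L)) (D : ℕ)
      (U W : Polynomial (Polynomial L)) (c : Polynomial L),
      Dat d G H (algebraMap K L) f A i j l P D U W c → ¬ Q) → Q → NoPtsAll d G H := by
    intro Q hQ hq Ω _ _ ψ M _ _ t y ht _ hon hdeg
    by_contra hcon
    have hchar : CharZero Ω := charZero_of_injective_ringHom ψ.injective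
    obtain ⟨f, A, i, j, l, P, D, U, W, c, hdat⟩ := extract hG hH ψ ht y hon hdeg hcon
    obtain ⟨L, _, _, _, f', A', P', U', W', c', hdat'⟩ := hdat.specialise
    exact hQ L f' A' i j l P' D U' W' c' hdat' hq
  tfae_have 1 → 3 := height_bound d G H
  tfae_have 3 → 4 := fin_of_bound d G H
  tfae_have 4 → 5 := units_of_fin d G H
  tfae_have 5 → 1 := hspec _ fun L _ _ _ f A i j l P D U W c h => h.not_finUnits
  tfae_have 1 → 2 := fun h => h (AlgebraicClosure K) (algebraMap K (AlgebraicClosure K))
  tfae_have 2 → 1 := hspec _ fun L _ _ _ f A i j l P D U W c h h2 => by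
    have : Algebra.IsAlgebraic K L := Algebra.IsAlgebraic.tower_top (K := ℚ) K
    let φ : L →ₐ[K] AlgebraicClosure K := IsAlgClosed.lift
    have h3 : (φ : L →+* AlgebraicClosure K).comp (algebraMap K L) =
      algebraMap K (AlgebraicClosure K) := φ.comp_algebraMap
    rw [← h3] at h2
    exact h.not_noPts (φ : L →+* AlgebraicClosure K) h2
  tfae_finish

end Pool.Agent.D0H85.BD
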